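import Mathlib
import Pool.Agent.U839.Thin.Mix

set_option autoImplicit false

/-! # Empty windows near every scale -/

open MeasureTheory ProbabilityTheory Filter Finset Topology
open Pool.Agent.H510R2.Maier (cntP cntP_eq)
open Pool.Agent.U839.Thin (GG tlog residue ae_complete)

namespace Pool.Agent.U395.RP

theorem tpow (r : ℝ) (hr : 0 < r) : Tendsto (fun n : ℕ => (n : ℝ) ^ r) atTop atTop :=
  (tendsto_rpow_atTop hr).comp tendsto_natCast_atTop_atTop

theorem arith (c η : ℝ) (hc : 0 < c) (hη : 0 < η) (hη1 : η ≤ 1 / 10) : ∀ᶠ x : ℕ in atTop,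
    (x : ℝ) ^ η ≤ ((x : ℝ) ^ (1 - η / 2) - ((x : ℝ) ^ (1 - η) + 1)) / (c * (Real.log x) ^ 2 + 1) *
      (x : ℝ) ^ (-(1 - 3 * η)) := by
  have h1 := (isLittleO_log_rpow_atTop (r := η / 8) (by positivity)).bound
    (show (0 : ℝ) < 1 by norm_num)
  have h2 := tendsto_natCast_atTop_atTop.eventually h1
  filter_upwards [h2, (tpow (η / 4) (by positivity)).eventually_ge_atTop (c + 1),
    (tpow (η / 2) (by positivity)).eventually_ge_atTop 4, tlog.eventually_ge_atTop 0,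
    (tpow η hη).eventually_ge_atTop 2, eventually_ge_atTop 1] with x g1 g2 g3 g4 g5 g6
  have hx1 : (1 : ℝ) ≤ x := by exact_mod_cast g6
  have hx : (0 : ℝ) < x := by linarith
  rw [one_mul, Real.norm_of_nonneg g4, Real.norm_of_nonneg (by positivity)] at g1
  have h3 : c * (Real.log x) ^ 2 + 1 ≤ (x : ℝ) ^ (η / 2) := by
    have h4 : (Real.log x) ^ 2 ≤ (x : ℝ) ^ (η / 4) := by
      calc (Real.log x) ^ 2 ≤ ((x : ℝ) ^ (η / 8)) ^ 2 := by gcongr
        _ = (x : ℝ) ^ (η / 4) := by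
            rw [← Real.rpow_natCast, ← Real.rpow_mul hx.le]
            congr 1
            push_cast; ring
    have h5 : 1 ≤ (x : ℝ) ^ (η / 4) := Real.one_le_rpow hx1 (by positivity)
    calc c * (Real.log x) ^ 2 + 1 ≤ c * (x : ℝ) ^ (η / 4) + 1 * (x : ℝ) ^ (η / 4) := by
          rw [one_mul]; gcongr
      _ = (c + 1) * (x : ℝ) ^ (η / 4) := by ring
      _ ≤ (x : ℝ) ^ (η / 4) * (x : ℝ) ^ (η / 4) := by gcongr
      _ = (x : ℝ) ^ (η / 2) := by
          rw [← Real.rpow_add hx]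
          congr 1
          ring
  have h6 : (x : ℝ) ^ (1 - η / 2) / 2 ≤ (x : ℝ) ^ (1 - η / 2) - ((x : ℝ) ^ (1 - η) + 1) := by
    have h7 : 1 ≤ (x : ℝ) ^ (1 - η) := Real.one_le_rpow hx1 (by linarith)
    have h8 : (x : ℝ) ^ (1 - η) * (x : ℝ) ^ (η / 2) = (x : ℝ) ^ (1 - η / 2) := by
      rw [← Real.rpow_add hx]
      congr 1
      ring
    have h9 : (x : ℝ) ^ (1 - η) * 4 ≤ (x : ℝ) ^ (1 - η) * (x : ℝ) ^ (η / 2) := by
      gcongr
    linarith
  have hpos : 0 < c * (Real.log x) ^ 2 + 1 := by positivity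
  calc (x : ℝ) ^ η = (x : ℝ) ^ η * 1 := by ring
    _ ≤ (x : ℝ) ^ η * ((x : ℝ) ^ η / 2) := by gcongr; linarith
    _ = (x : ℝ) ^ (1 - η / 2) / 2 / (x : ℝ) ^ (η / 2) * (x : ℝ) ^ (-(1 - 3 * η)) := by
        have h10 : (x : ℝ) ^ (1 - η / 2) / (x : ℝ) ^ (η / 2) * (x : ℝ) ^ (-(1 - 3 * η)) =
            (x : ℝ) ^ η * (x : ℝ) ^ η := by
          rw [← Real.rpow_sub hx, ← Real.rpow_add hx, ← Real.rpow_add hx]
          congr 1
          ring
        calc _ = ((x : ℝ) ^ η * (x : ℝ) ^ η) / 2 := by ring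
          _ = ((x : ℝ) ^ (1 - η / 2) / (x : ℝ) ^ (η / 2) * (x : ℝ) ^ (-(1 - 3 * η))) / 2 := by
              rw [h10]
          _ = _ := by ring
    _ ≤ _ := by
        apply mul_le_mul_of_nonneg_right _ (by positivity)
        apply div_le_div₀ _ h6 hpos h3
        refine le_trans ?_ h6
        positivity

/-- `c (log n)² ≤ n` -/
theorem logsq (c : ℝ) : ∀ᶠ n : ℕ in atTop, c * (Real.log n) ^ 2 ≤ n := by
  have h1 := (isLittleO_log_rpow_atTop (r := 1 / 4) (by norm_num)).bound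
    (show (0 : ℝ) < 1 by norm_num)
  have h2 := tendsto_natCast_atTop_atTop.eventually h1
  filter_upwards [h2, (tpow (1 / 2) (by norm_num)).eventually_ge_atTop c, tlog.eventually_ge_atTop 0,
    eventually_ge_atTop 1] with n g1 g2 g3 g4
  have g5 : (0 : ℝ) < n := by exact_mod_cast g4
  rw [one_mul, Real.norm_of_nonneg g3, Real.norm_of_nonneg (by positivity)] at g1
  calc c * (Real.log n) ^ 2 ≤ (n : ℝ) ^ (1 / 2 : ℝ) * ((n : ℝ) ^ (1 / 4 : ℝ)) ^ 2 := by
        gcongr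
    _ = (n : ℝ) ^ (1 / 2 : ℝ) * (n : ℝ) ^ (1 / 2 : ℝ) := by
        rw [← Real.rpow_natCast, ← Real.rpow_mul g5.le]
        norm_num
    _ = n := by
        rw [← Real.rpow_add g5]
        norm_num

variable {Ω : Type*} [MeasurableSpace Ω] {μ : Measure Ω} [IsProbabilityMeasure μ]

set_option maxHeartbeats 4000000 in
/-- empty windows at every scale -/
theorem core (κ c η : ℝ) (hκ : 0 < κ) (hc : 0 < c) (hcG : c < GG * κ) (hη : 0 < η)
    (hη1 : η ≤ 1 / 10) {A : ℕ → Set Ω} (hm : ∀ n, MeasurableSet (A n)) (hA : iIndepSet A μ)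
    (R : ℕ → ℕ → Prop)
    (hpt : ∀ᶠ n : ℕ in atTop, (cntP Nat.Prime n ⌊c * (Real.log n) ^ 2⌋₊ : ℝ) ≤ κ * Real.log n →
      ∃ n' w : ℕ, n ≤ n' ∧ n' + w ≤ n + ⌊c * (Real.log n) ^ 2⌋₊ ∧ R n' w ∧
        Real.exp (-((1 - 3 * η) * Real.log n)) ≤ ∏ m ∈ Ioc n' (n' + w), μ.real (A m)) :
    ∀ᵐ ω ∂μ, ∀ᶠ x : ℕ in atTop, ∃ n' w : ℕ, (x : ℝ) ^ (1 - η) ≤ n' ∧ n' + w ≤ 2 * x ∧ R n' w ∧
      ∀ m ∈ Ioc n' (n' + w), ω ∈ A m := by
  classical
  have hff := Pool.Agent.H510R2.Maier.G.few_freq κ c (η / 2) hκ hcG (by positivity)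
  obtain ⟨N, hN⟩ := eventually_atTop.1 hpt
  have key := ae_complete (μ := μ) hm hA η hη
    (fun x i T => ∃ n' w : ℕ, (x : ℝ) ^ (1 - η) ≤ n' ∧ n' + w ≤ 2 * x ∧ R n' w ∧
      T = Ioc n' (n' + w)) ?_
  · filter_upwards [key] with ω hω
    filter_upwards [hω] with x hx
    obtain ⟨i, T, ⟨n', w, h1, h2, h3, h4⟩, h5⟩ := hx
    refine ⟨n', w, h1, h2, h3, ?_⟩
    rw [← h4]
    exact h5
  · have tsq : ∀ᶠ x : ℕ in atTop, (N : ℝ) ≤ (x : ℝ) ^ (1 - η) :=
      (tpow (1 - η) (by linarith)).eventually_ge_atTop _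
    filter_upwards [hff, arith c η hc hη hη1, tsq, eventually_ge_atTop 1, logsq c]
      with x g1 g2 g3 g4 gl
    have hx1 : (1 : ℝ) ≤ x := by exact_mod_cast g4
    have hx0 : (0 : ℝ) < x := by linarith
    have hLx : 0 ≤ Real.log x := Real.log_natCast_nonneg x
    set S₀ : Finset ℕ := (Icc 1 x).filter (fun n : ℕ =>
      (cntP Nat.Prime n ⌊c * (Real.log n) ^ 2⌋₊ : ℝ) ≤ κ * Real.log n) with hS₀
    have hS₀c : (x : ℝ) ^ (1 - η / 2) ≤ S₀.card := by
      unfold Pool.Agent.H510R2.Maier.G.NF at g1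
      convert g1
    set S₁ : Finset ℕ := S₀.filter (fun n : ℕ => (x : ℝ) ^ (1 - η) ≤ n) with hS₁
    have hS₁c : (x : ℝ) ^ (1 - η / 2) - ((x : ℝ) ^ (1 - η) + 1) ≤ S₁.card := by
      have h1 : S₀.card ≤ S₁.card + (range (⌊(x : ℝ) ^ (1 - η)⌋₊ + 1)).card := by
        rw [← Finset.card_filter_add_card_filter_not (s := S₀) (fun n : ℕ => (x : ℝ) ^ (1 - η) ≤ n)]
        apply Nat.add_le_add le_rfl
        apply Finset.card_le_card
        intro n hn
        rw [Finset.mem_filter, not_le] at hn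
        rw [Finset.mem_range]
        exact Nat.lt_succ_of_le (Nat.le_floor hn.2.le)
      rw [Finset.card_range] at h1
      have h2 : (S₀.card : ℝ) ≤ S₁.card + (⌊(x : ℝ) ^ (1 - η)⌋₊ + 1) := by exact_mod_cast h1
      have h3 : (⌊(x : ℝ) ^ (1 - η)⌋₊ : ℝ) ≤ (x : ℝ) ^ (1 - η) :=
        Nat.floor_le (by positivity)
      linarith
    set M : ℕ := ⌊c * (Real.log x) ^ 2⌋₊ + 1 with hM
    obtain ⟨r, hr⟩ := residue S₁ M (Nat.succ_pos _)
    set S : Finset ℕ := S₁.filter (fun n => n % M = r) with hS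
    have hmem : ∀ n ∈ S, (1 ≤ n ∧ n ≤ x) ∧
        (cntP Nat.Prime n ⌊c * (Real.log n) ^ 2⌋₊ : ℝ) ≤ κ * Real.log n ∧
        (x : ℝ) ^ (1 - η) ≤ n ∧ n % M = r := by
      intro n hn
      rw [hS, Finset.mem_filter, hS₁, Finset.mem_filter, hS₀, Finset.mem_filter, Finset.mem_Icc] at hn
      exact ⟨hn.1.1.1, hn.1.1.2, hn.1.2, hn.2⟩
    have hbig : ∀ n ∈ S, N ≤ n := by
      intro n hn
      have := g3.trans (hmem n hn).2.2.1
      exact_mod_cast this
    have hex : ∀ n ∈ S, ∃ n' w : ℕ, n ≤ n' ∧ n' + w ≤ n + ⌊c * (Real.log n) ^ 2⌋₊ ∧ R n' w ∧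
        Real.exp (-((1 - 3 * η) * Real.log n)) ≤ ∏ m ∈ Ioc n' (n' + w), μ.real (A m) := by
      intro n hn
      exact hN n (hbig n hn) (hmem n hn).2.1
    choose! n' w h1 h2 h3 h4 using hex
    have hYM : ∀ n ∈ S, ⌊c * (Real.log n) ^ 2⌋₊ < M := by
      intro n hn
      rw [hM]
      apply Nat.lt_succ_of_le
      apply Nat.floor_le_floor
      have h5 : Real.log n ≤ Real.log x :=
        Real.log_le_log (by exact_mod_cast (hmem n hn).1.1) (by exact_mod_cast (hmem n hn).1.2)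
      have h6 : 0 ≤ Real.log n := Real.log_natCast_nonneg n
      gcongr
    have hMx : M ≤ x + 1 := by
      rw [hM]
      apply Nat.succ_le_succ
      have := (Nat.floor_le (show 0 ≤ c * (Real.log x) ^ 2 by positivity)).trans gl
      exact_mod_cast this
    refine ⟨S, fun n => Ioc (n' n) (n' n + w n), ?_, ?_, ?_⟩
    · intro i hi j hj hij
      rw [Finset.disjoint_left]
      intro p hp hp'
      rw [Finset.mem_Ioc] at hp hp'
      have a1 := h1 i hi
      have a2 := h2 i hi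
      have a3 := hYM i hi
      have b1 := h1 j hj
      have b2 := h2 j hj
      have b3 := hYM j hj
      have c1 := (hmem i hi).2.2.2
      have c2 := (hmem j hj).2.2.2
      have hmod : i ≡ j [MOD M] := by
        show i % M = j % M
        rw [c1, c2]
      rcases lt_or_gt_of_ne hij with h | h
      · have h5 : M ∣ j - i := (Nat.modEq_iff_dvd' h.le).1 hmod
        have h6 := Nat.le_of_dvd (by omega) h5
        omega
      · have h5 : M ∣ i - j := (Nat.modEq_iff_dvd' h.le).1 hmod.symm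
        have h6 := Nat.le_of_dvd (by omega) h5
        omega
    · intro n hn
      have e1 := hmem n hn
      have e2 := h1 n hn
      have e3 := h2 n hn
      have e4 := hYM n hn
      refine ⟨n' n, w n, ?_, ?_, h3 n hn, rfl⟩
      · refine e1.2.2.1.trans ?_
        exact_mod_cast e2
      · omega
    · have hterm : ∀ n ∈ S, (x : ℝ) ^ (-(1 - 3 * η)) ≤
          ∏ m ∈ Ioc (n' n) (n' n + w n), μ.real (A m) := by
        intro n hn
        refine le_trans ?_ (h4 n hn)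
        rw [Real.rpow_def_of_pos hx0]
        apply Real.exp_le_exp.2
        have h5 : Real.log n ≤ Real.log x :=
          Real.log_le_log (by exact_mod_cast (hmem n hn).1.1)
            (by exact_mod_cast (hmem n hn).1.2)
        have h6 : 0 ≤ 1 - 3 * η := by linarith
        have := mul_le_mul_of_nonneg_left h5 h6
        linarith
      have hScard : ((x : ℝ) ^ (1 - η / 2) - ((x : ℝ) ^ (1 - η) + 1)) /
          (c * (Real.log x) ^ 2 + 1) ≤ S.card := by
        rw [div_le_iff₀ (by positivity)]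
        have h5 : (S₁.card : ℝ) ≤ M * S.card := by exact_mod_cast hr
        have h6 : (M : ℝ) ≤ c * (Real.log x) ^ 2 + 1 := by
          rw [hM]
          push_cast
          have := Nat.floor_le (show 0 ≤ c * (Real.log x) ^ 2 by positivity)
          linarith
        calc _ ≤ (S₁.card : ℝ) := hS₁c
          _ ≤ M * S.card := h5
          _ ≤ (c * (Real.log x) ^ 2 + 1) * S.card := by gcongr
          _ = _ := by ring
      calc (x : ℝ) ^ η ≤ _ := g2
        _ ≤ S.card * (x : ℝ) ^ (-(1 - 3 * η)) := by gcongr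
        _ = ∑ _n ∈ S, (x : ℝ) ^ (-(1 - 3 * η)) := by
            rw [Finset.sum_const, nsmul_eq_mul]
        _ ≤ _ := Finset.sum_le_sum hterm

end Pool.Agent.U395.RP
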