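import Mathlib

set_option autoImplicit false

/-! # The largest gap up to `X` from empty windows and from windows with elements -/

open Filter Finset Topology

namespace Pool.Agent.U395.RP

/-- the largest gap between consecutive elements at most `X` -/
noncomputable def G (Q : Set ℕ) (X : ℕ) : ℕ :=
  sSup {g | ∃ k, Nat.nth (· ∈ Q) (k + 1) ≤ X ∧ g = Nat.nth (· ∈ Q) (k + 1) - Nat.nth (· ∈ Q) k}

theorem bdd (Q : Set ℕ) (X : ℕ) : BddAbove
    {g | ∃ k, Nat.nth (· ∈ Q) (k + 1) ≤ X ∧ g = Nat.nth (· ∈ Q) (k + 1) - Nat.nth (· ∈ Q) k} := by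
  refine ⟨X, ?_⟩
  rintro g ⟨k, hk, rfl⟩
  omega

/-- an empty window below an element -/
theorem G_ge (Q : Set ℕ) (hQ : Q.Infinite) (X n w a b : ℕ) (ha : a ∈ Q) (han : a ≤ n)
    (hw : ∀ m, n < m → m ≤ n + w → m ∉ Q) (hb : b ∈ Q) (hnb : n < b) (hbX : b ≤ X) :
    w ≤ G Q X := by
  classical
  have hQ' : (Set.ofPred (· ∈ Q)).Infinite := hQ
  obtain ⟨k, hk⟩ : ∃ k, k = Nat.count (· ∈ Q) (n + 1) := ⟨_, rfl⟩
  have hk0 : 0 < k := by
    have h := Nat.count_strict_mono (p := (· ∈ Q)) ha (show a < n + 1 by omega)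
    rw [← hk] at h
    omega
  have h1 : Nat.nth (· ∈ Q) (k - 1) < n + 1 := Nat.nth_lt_of_lt_count (by omega)
  have h2 : n + 1 ≤ Nat.nth (· ∈ Q) k := by
    rw [hk]
    exact Nat.le_nth_count hQ' (n + 1)
  have h3 : Nat.nth (· ∈ Q) k ∈ Q := Nat.nth_mem_of_infinite hQ' _
  have h4 : n + w < Nat.nth (· ∈ Q) k := by
    by_contra hcon
    exact hw _ (by omega) (by omega) h3
  have h5 : Nat.nth (· ∈ Q) k ≤ b := by
    have h6 : k ≤ Nat.count (· ∈ Q) b := by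
      rw [hk]
      exact Nat.count_monotone _ (by omega)
    have h7 : Nat.nth (· ∈ Q) (Nat.count (· ∈ Q) b) = b := Nat.nth_count (p := (· ∈ Q)) hb
    rw [← h7]
    exact (Nat.nth_strictMono hQ').monotone h6
  have h8 : Nat.nth (· ∈ Q) k - Nat.nth (· ∈ Q) (k - 1) ≤ G Q X := by
    apply le_csSup (bdd Q X)
    refine ⟨k - 1, ?_, ?_⟩
    · rw [Nat.sub_add_cancel hk0]
      omega
    · rw [Nat.sub_add_cancel hk0]
  omega

/-- an element in every window -/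
theorem G_le (Q : Set ℕ) (hQ : Q.Infinite) (U : ℕ → ℝ) (n₀ : ℕ)
    (h : ∀ n, n₀ ≤ n → ∃ m : ℕ, n < m ∧ (m : ℝ) ≤ n + U n ∧ m ∈ Q) (X : ℕ) (V : ℝ)
    (hU : ∀ n, n₀ ≤ n → n ≤ X → U n ≤ V) (hV : (n₀ : ℝ) + U n₀ ≤ V) : (G Q X : ℝ) ≤ V := by
  classical
  have hQ' : (Set.ofPred (· ∈ Q)).Infinite := hQ
  obtain ⟨m₀, a1, a2, a3⟩ := h n₀ le_rfl
  have hV0 : (m₀ : ℝ) ≤ V := a2.trans hV
  have hV1 : 0 ≤ V := le_trans (Nat.cast_nonneg m₀) hV0
  have key : G Q X ≤ ⌊V⌋₊ := by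
    apply csSup_le'
    rintro g ⟨k, hk, rfl⟩
    apply Nat.le_floor
    obtain ⟨a, ha⟩ : ∃ a, a = Nat.nth (· ∈ Q) k := ⟨_, rfl⟩
    obtain ⟨b, hb⟩ : ∃ b, b = Nat.nth (· ∈ Q) (k + 1) := ⟨_, rfl⟩
    have hab : a < b := by
      rw [ha, hb]
      exact Nat.nth_strictMono hQ' (Nat.lt_succ_self k)
    have hbm : ∀ m ∈ Q, a < m → b ≤ m := by
      intro m hm ham
      have h3 : k < Nat.count (· ∈ Q) m := by
        rw [ha] at ham
        exact (Nat.lt_nth_iff_count_lt hQ').2 ham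
      have h4 : Nat.nth (· ∈ Q) (Nat.count (· ∈ Q) m) = m := Nat.nth_count (p := (· ∈ Q)) hm
      rw [hb, ← h4]
      exact (Nat.nth_strictMono hQ').monotone h3
    have hbX : b ≤ X := by
      rw [hb]
      exact hk
    rw [← ha, ← hb, Nat.cast_sub hab.le]
    rcases le_total n₀ a with h1 | h1
    · obtain ⟨m, h2, h3, h4⟩ := h a h1
      have h5 : (b : ℝ) ≤ m := by exact_mod_cast hbm m h4 h2
      have h6 := hU a h1 (hab.le.trans hbX)
      linarith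
    · have h5 : (b : ℝ) ≤ m₀ := by exact_mod_cast hbm m₀ a3 (by omega)
      have : (0 : ℝ) ≤ a := Nat.cast_nonneg a
      linarith
  have h9 : (G Q X : ℝ) ≤ ⌊V⌋₊ := by exact_mod_cast key
  exact h9.trans (Nat.floor_le hV1)

end Pool.Agent.U395.RP
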