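import Mathlib
import Pool.Agent.U395.RP.Core
import Pool.Agent.U395.RP.Up
import Pool.Agent.U395.RP.Gap

set_option autoImplicit false

/-! # From windows to the largest gap -/

open Filter Finset Topology
open Pool.Agent.U839.Thin (tlog)

namespace Pool.Agent.U395.RP

/-- elements in all windows: bound for the largest gap -/
theorem conv_up (Q : Set ℕ) (hQ : Q.Infinite) (c θ : ℝ) (hc : 0 < c) (hθ : 0 ≤ θ)
    (h : ∀ᶠ n : ℕ in atTop, ∃ m : ℕ, n < m ∧ (m : ℝ) ≤ n + c * (Real.log n) ^ (2 + θ) ∧ m ∈ Q) :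
    ∀ᶠ X : ℕ in atTop, (G Q X : ℝ) ≤ c * (Real.log X) ^ (2 + θ) := by
  obtain ⟨n₀, hn₀⟩ := eventually_atTop.1 h
  obtain ⟨n₁, hn₁⟩ : ∃ n₁, n₁ = max n₀ 1 := ⟨_, rfl⟩
  have e1 : Tendsto (fun X : ℕ => c * (Real.log (X : ℝ)) ^ (2 + θ)) atTop atTop :=
    ((tendsto_rpow_atTop (show 0 < 2 + θ by linarith)).comp tlog).const_mul_atTop hc
  filter_upwards [e1.eventually_ge_atTop ((n₁ : ℝ) + c * (Real.log n₁) ^ (2 + θ))] with X hX
  apply G_le Q hQ (fun n => c * (Real.log n) ^ (2 + θ)) n₁ _ X _ _ hX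
  · intro n hn
    exact hn₀ n (by rw [hn₁] at hn; exact (le_max_left _ _).trans hn)
  · intro n hn hnX
    have hn1 : 1 ≤ n := by rw [hn₁] at hn; exact (le_max_right _ _).trans hn
    have hn0 : (0 : ℝ) < n := by exact_mod_cast hn1
    have h1 : 0 ≤ Real.log n := Real.log_natCast_nonneg n
    have h2 : Real.log n ≤ Real.log X := Real.log_le_log hn0 (by exact_mod_cast hnX)
    have h3 : (Real.log n) ^ (2 + θ) ≤ (Real.log X) ^ (2 + θ) :=
      Real.rpow_le_rpow h1 h2 (by linarith)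
    gcongr

theorem inf_of (Q : Set ℕ) (U : ℕ → ℝ)
    (h : ∀ᶠ n : ℕ in atTop, ∃ m : ℕ, n < m ∧ (m : ℝ) ≤ n + U n ∧ m ∈ Q) : Q.Infinite := by
  rw [Set.infinite_iff_exists_gt]
  intro N
  obtain ⟨n₀, hn₀⟩ := eventually_atTop.1 h
  obtain ⟨m, hm1, -, hm3⟩ := hn₀ (max n₀ N) (le_max_left _ _)
  exact ⟨m, hm3, lt_of_le_of_lt (le_max_right _ _) hm1⟩

/-- empty windows at all scales -/
theorem conv_low (Q : Set ℕ) (hQ : Q.Infinite) (c θ s : ℝ) (hs : s < 1)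
    (h : ∀ᶠ n : ℕ in atTop, ∃ m : ℕ, n < m ∧ (m : ℝ) ≤ n + c * (Real.log n) ^ (2 + θ) ∧ m ∈ Q)
    (R : ℕ → ℕ → Prop)
    (hw : ∀ᶠ x : ℕ in atTop, ∃ n' w : ℕ, (x : ℝ) ^ (1 - s) ≤ n' ∧ n' + w ≤ 2 * x ∧ R n' w ∧
      ∀ m ∈ Ioc n' (n' + w), m ∉ Q) :
    ∀ᶠ X : ℕ in atTop, ∃ n' w : ℕ, ((X / 4 : ℕ) : ℝ) ^ (1 - s) ≤ n' ∧ n' ≤ X ∧ R n' w ∧
      w ≤ G Q X := by
  obtain ⟨a, ha⟩ := hQ.nonempty
  have d4 : Tendsto (fun X : ℕ => X / 4) atTop atTop := Nat.tendsto_div_const_atTop (by norm_num)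
  have d2 : Tendsto (fun X : ℕ => X / 2) atTop atTop := Nat.tendsto_div_const_atTop (by norm_num)
  filter_upwards [d4.eventually hw, d2.eventually h, d2.eventually (logpow c (2 + θ)),
    d4.eventually ((tpow (1 - s) (by linarith)).eventually_ge_atTop (a : ℝ)),
    d4.eventually (eventually_ge_atTop 1)] with X g1 g2 g3 g4 g5
  obtain ⟨n', w, k1, k2, k3, k4⟩ := g1
  obtain ⟨b, j1, j2, j3⟩ := g2
  have j4 : (b : ℝ) ≤ ((X / 2 : ℕ) : ℝ) + ((X / 2 : ℕ) : ℝ) := j2.trans (by linarith)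
  have j5 : b ≤ X / 2 + X / 2 := by exact_mod_cast j4
  have k5 : a ≤ n' := by exact_mod_cast g4.trans k1
  refine ⟨n', w, k1, by omega, k3, ?_⟩
  exact G_ge Q hQ X n' w a b ha k5 (fun m h1 h2 => k4 m (Finset.mem_Ioc.2 ⟨h1, h2⟩)) j3
    (by omega) (by omega)

theorem quarter (s : ℝ) (hs : 0 < s) : ∀ᶠ X : ℕ in atTop,
    (1 - s) * Real.log X ≤ Real.log ((X / 4 : ℕ) : ℝ) := by
  filter_upwards [tlog.eventually_ge_atTop (3 / s), eventually_ge_atTop 8] with X g1 g2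
  have hX0 : (0 : ℝ) < X := by exact_mod_cast (by omega : 0 < X)
  have h7 : (X : ℝ) ≤ 8 * ((X / 4 : ℕ) : ℝ) := by exact_mod_cast (by omega : X ≤ 8 * (X / 4))
  have h8 := Real.log_le_log hX0 h7
  rw [Real.log_mul (by norm_num) (by exact_mod_cast (by omega : X / 4 ≠ 0))] at h8
  have h9 : Real.log 8 ≤ 3 := by
    have : Real.log 8 = 3 * Real.log 2 := by
      rw [← Real.log_rpow (by norm_num)]
      norm_num
    rw [this]
    have := Real.log_two_lt_d9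
    linarith
  rw [div_le_iff₀ hs] at g1
  linarith

/-- the logarithm of the left end -/
theorem log_left (s : ℝ) (hs : 0 < s) (hs1 : s < 1) : ∀ᶠ X : ℕ in atTop, ∀ n' : ℕ,
    ((X / 4 : ℕ) : ℝ) ^ (1 - s) ≤ n' → (1 - s) ^ 2 * Real.log X ≤ Real.log n' := by
  filter_upwards [quarter s hs, eventually_ge_atTop 8] with X g1 g2 n' h
  have hx0 : (0 : ℝ) < ((X / 4 : ℕ) : ℝ) := by exact_mod_cast (by omega : 0 < X / 4)
  have h1 := Real.log_le_log (Real.rpow_pos_of_pos hx0 _) h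
  rw [Real.log_rpow hx0] at h1
  refine le_trans ?_ h1
  have h2 : 0 < 1 - s := by linarith
  calc (1 - s) ^ 2 * Real.log X = (1 - s) * ((1 - s) * Real.log X) := by ring
    _ ≤ _ := by gcongr

end Pool.Agent.U395.RP
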