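import Mathlib
import Pool.Agent.U395.RP.Core

set_option autoImplicit false

/-! # Empty windows of the mixture at every scale -/

open MeasureTheory ProbabilityTheory Filter Finset Topology
open Pool.Agent.H510R2.Maier (cntP cntP_eq)
open Pool.Agent.U839.Thin (GG GG_pos tlog compl_indep one_sub_ge card_prime_Ioc)

namespace Pool.Agent.U395.RP

variable {Ω : Type*} [MeasurableSpace Ω] {μ : Measure Ω} [IsProbabilityMeasure μ]

set_option maxHeartbeats 4000000 in
theorem lowA (α : ℝ) (h0 : 0 ≤ α) (h1 : α < 1) {E : ℕ → Set Ω} (hm : ∀ n, MeasurableSet (E n))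
    (hE : iIndepSet E μ)
    (hP : ∀ᶠ n : ℕ in atTop, μ.real (E n) = (if n.Prime then α else 0) + (1 - α) / Real.log n)
    (c : ℝ) (hc0 : 0 < c) (hc : c * ((1 - α) + -Real.log (1 - α) / GG) < 1) (ε : ℝ) (hε : 0 < ε) :
    ∀ᵐ ω ∂μ, ∀ᶠ x : ℕ in atTop, ∃ n' w : ℕ, (x : ℝ) ^ (1 - ε) ≤ n' ∧ n' + w ≤ 2 * x ∧
      c * (Real.log n') ^ 2 - 1 ≤ w ∧ ∀ m ∈ Ioc n' (n' + w), ω ∉ E m := by
  classical
  have hG := GG_pos
  set d : ℝ := -Real.log (1 - α) with hd
  have hα : 0 < 1 - α := by linarith
  have hd0 : 0 ≤ d := by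
    have := Real.log_nonpos hα.le (by linarith)
    linarith
  obtain ⟨κ, hκ1, hκ2⟩ : ∃ κ : ℝ, c < GG * κ ∧ (1 - α) * c + d * κ < 1 := by
    have h2 : (1 - α) * c + d * (c / GG) < 1 := by
      have : (1 - α) * c + d * (c / GG) = c * ((1 - α) + d / GG) := by ring
      rw [this]; exact hc
    obtain ⟨τ, hτ, hτ2⟩ : ∃ τ : ℝ, 0 < τ ∧ (1 - α) * c + d * (c / GG) + d * τ < 1 := by
      refine ⟨(1 - ((1 - α) * c + d * (c / GG))) / (2 * (d + 1)), by
        apply div_pos <;> linarith, ?_⟩
      have h3 : d * ((1 - ((1 - α) * c + d * (c / GG))) / (2 * (d + 1))) ≤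
          (1 - ((1 - α) * c + d * (c / GG))) / 2 := by
        rw [mul_div_assoc', div_le_div_iff₀ (by linarith) (by norm_num)]
        nlinarith
      linarith
    refine ⟨c / GG + τ, ?_, ?_⟩
    · have : GG * (c / GG + τ) = c + GG * τ := by field_simp
      rw [this]
      have := mul_pos hG hτ
      linarith
    · rw [mul_add]; linarith
  have hκ0 : 0 < κ := by
    by_contra hcon
    push Not at hcon
    have := mul_nonpos_of_nonneg_of_nonpos hG.le hcon
    linarith
  set base : ℝ := (1 - α) * c + d * κ with hbase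
  set η : ℝ := min ε (min (1 / 10) ((1 - base) / (3 + c + κ))) with hηd
  have hη : 0 < η := lt_min hε (lt_min (by norm_num) (div_pos (by linarith) (by linarith)))
  have hηε : η ≤ ε := min_le_left _ _
  have hη1 : η ≤ 1 / 10 := (min_le_right _ _).trans (min_le_left _ _)
  have hη2 : (1 - α) * (1 + η) * c + (d + η) * κ ≤ 1 - 3 * η := by
    have h2 : η * (3 + c + κ) ≤ 1 - base := by
      have : η ≤ (1 - base) / (3 + c + κ) := (min_le_right _ _).trans (min_le_right _ _)
      rwa [le_div_iff₀ (by linarith)] at this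
    have h3 : (1 - α) * (η * c) ≤ 1 * (η * c) := by
      apply mul_le_mul_of_nonneg_right (by linarith)
      positivity
    have h4 : (1 - α) * (1 + η) * c + (d + η) * κ = base + ((1 - α) * (η * c) + η * κ) := by
      rw [hbase]; ring
    rw [h4]
    linarith
  obtain ⟨n₁, hn₁⟩ := eventually_atTop.1 hP
  have key := core (μ := μ) κ c η hκ0 hc0 hκ1 hη hη1 (fun p => (hm p).compl) (compl_indep hE)
    (fun n' w => c * (Real.log n') ^ 2 - 1 ≤ w) ?_
  · filter_upwards [key] with ω hω
    filter_upwards [hω, eventually_ge_atTop 1] with x hx hx1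
    obtain ⟨n', w, g1, g2, g3, g4⟩ := hx
    refine ⟨n', w, ?_, g2, g3, g4⟩
    refine le_trans ?_ g1
    exact Real.rpow_le_rpow_of_exponent_le (by exact_mod_cast hx1) (by linarith)
  · filter_upwards [eventually_ge_atTop n₁, tlog.eventually_ge_atTop (max (4 / η) 4)] with n k1 k2 s4
    refine ⟨n, ⌊c * (Real.log n) ^ 2⌋₊, le_rfl, le_rfl, (Nat.sub_one_lt_floor _).le, ?_⟩
    have k3 : 4 / η ≤ Real.log n := (le_max_left _ _).trans k2
    have k4 : 4 ≤ Real.log n := (le_max_right _ _).trans k2
    have hL : 0 < Real.log n := by linarith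
    have hn0 : (0 : ℝ) < n := by
      rcases Nat.eq_zero_or_pos n with h | h
      · rw [h] at k4; simp at k4; linarith
      · exact_mod_cast h
    set L : ℝ := Real.log n with hLdef
    set Y : ℕ := ⌊c * L ^ 2⌋₊ with hY
    have k5 : 4 / L ≤ η := by
      rw [div_le_iff₀ hη] at k3
      rw [div_le_iff₀ hL]
      linarith
    have hfac : ∀ m ∈ Ioc n (n + Y), Real.exp (-((1 - α) * (1 + η) / L +
        (if m.Prime then d + η else 0))) ≤ μ.real (E m)ᶜ := by
      intro m hmm
      rw [Finset.mem_Ioc] at hmm
      rw [probReal_compl_eq_one_sub (hm m), hn₁ m (k1.trans hmm.1.le)]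
      have hlm : L ≤ Real.log m := Real.log_le_log hn0 (by exact_mod_cast hmm.1.le)
      have hlm0 : 0 < Real.log m := by linarith
      set y : ℝ := 1 / Real.log m with hy
      have hy0 : 0 < y := by positivity
      have hyL : y ≤ 1 / L := one_div_le_one_div_of_le hL hlm
      have hy4 : y ≤ 1 / 4 := hyL.trans (one_div_le_one_div_of_le (by norm_num) k4)
      have hyη : 4 * y ≤ η := by
        refine le_trans ?_ k5
        rw [div_eq_mul_one_div]
        linarith
      split_ifs with hprime
      · -- prime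
        have e1 : 1 - (α + (1 - α) / Real.log m) = (1 - α) * (1 - y) := by
          rw [hy]; ring
        rw [e1]
        have e2 : 1 - α = Real.exp (-d) := by
          rw [hd, neg_neg, Real.exp_log hα]
        have e3 := one_sub_ge y hy0.le (by linarith)
        calc Real.exp (-((1 - α) * (1 + η) / L + (d + η))) ≤ Real.exp (-d + -(y + 2 * y ^ 2)) := by
              apply Real.exp_le_exp.2
              have e4 : 0 ≤ (1 - α) * (1 + η) / L := by positivity
              have e5 : y + 2 * y ^ 2 ≤ η := by nlinarith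
              linarith
          _ = (1 - α) * Real.exp (-(y + 2 * y ^ 2)) := by rw [Real.exp_add, ← e2]
          _ ≤ (1 - α) * (1 - y) := by gcongr
      · -- composite
        set z : ℝ := (1 - α) / Real.log m with hz
        have hzy : z = (1 - α) * y := by rw [hz, hy]; ring
        have hz0 : 0 ≤ z := by rw [hzy]; positivity
        have hz1 : z ≤ y := by rw [hzy]; nlinarith
        have e3 := one_sub_ge z hz0 (by linarith)
        rw [zero_add, add_zero]
        refine le_trans ?_ e3
        apply Real.exp_le_exp.2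
        rw [neg_le_neg_iff]
        have e4 : z + 2 * z ^ 2 ≤ z * (1 + η) := by nlinarith
        refine e4.trans ?_
        have e5 : z ≤ (1 - α) / L := by
          rw [hzy, div_eq_mul_one_div]
          gcongr
        calc z * (1 + η) ≤ (1 - α) / L * (1 + η) := by gcongr
          _ = _ := by ring
    calc Real.exp (-((1 - 3 * η) * L)) ≤ Real.exp (-(∑ m ∈ Ioc n (n + Y), ((1 - α) * (1 + η) / L +
            (if m.Prime then d + η else 0)))) := by
          apply Real.exp_le_exp.2
          rw [neg_le_neg_iff, Finset.sum_add_distrib, Finset.sum_const, Nat.card_Ioc,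
            ← Finset.sum_filter, Finset.sum_const, nsmul_eq_mul, nsmul_eq_mul, card_prime_Ioc]
          have e1 : ((n + Y - n : ℕ) : ℝ) ≤ c * L ^ 2 := by
            rw [Nat.add_sub_cancel_left]
            exact Nat.floor_le (by positivity)
          have e2 : ((n + Y - n : ℕ) : ℝ) * ((1 - α) * (1 + η) / L) ≤
              (1 - α) * (1 + η) * c * L := by
            calc ((n + Y - n : ℕ) : ℝ) * ((1 - α) * (1 + η) / L) ≤
                c * L ^ 2 * ((1 - α) * (1 + η) / L) := by gcongr
              _ = _ := by field_simp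
          have e3 : (cntP Nat.Prime n Y : ℝ) * (d + η) ≤ κ * L * (d + η) := by
            apply mul_le_mul_of_nonneg_right s4
            linarith
          have e4 : ((1 - α) * (1 + η) * c + (d + η) * κ) * L ≤ (1 - 3 * η) * L :=
            mul_le_mul_of_nonneg_right hη2 hL.le
          nlinarith
      _ = ∏ m ∈ Ioc n (n + Y), Real.exp (-((1 - α) * (1 + η) / L +
            (if m.Prime then d + η else 0))) := by
          rw [← Finset.sum_neg_distrib, Real.exp_sum]
      _ ≤ _ := Finset.prod_le_prod (fun m _ => (Real.exp_pos _).le) hfac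

end Pool.Agent.U395.RP
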