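import Mathlib
import Pool.Agent.U395.RP.Core

set_option autoImplicit false

/-! # Empty windows for a rate which tends to zero -/

open MeasureTheory ProbabilityTheory Filter Finset Topology
open Pool.Agent.H510R2.Maier (cntP cntP_eq)
open Pool.Agent.U839.Thin (GG GG_pos tlog compl_indep one_sub_ge PW mem_PW Slow slow_loglog point)

namespace Pool.Agent.U395.RP

variable {Ω : Type*} [MeasurableSpace Ω] {μ : Measure Ω} [IsProbabilityMeasure μ]

set_option maxHeartbeats 4000000 in
theorem lowB (θ : ℝ) (hθ : 0 < θ) {E : ℕ → Set Ω} (hm : ∀ n, MeasurableSet (E n))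
    (hE : iIndepSet E μ)
    (hP1 : ∀ᶠ p : ℕ in atTop, p.Prime → Real.exp (-(θ * Real.log (Real.log p))) ≤ μ.real (E p)ᶜ)
    (hP2 : ∀ᶠ n : ℕ in atTop, ¬ n.Prime → 1 - 1 / Real.log n ≤ μ.real (E n)ᶜ)
    (e : ℝ) (he : 0 < e) (heG : e < GG) (ε : ℝ) (hε : 0 < ε) :
    ∀ᵐ ω ∂μ, ∀ᶠ x : ℕ in atTop, ∃ n' w : ℕ, (x : ℝ) ^ (1 - ε) ≤ n' ∧ n' + w ≤ 2 * x ∧
      (GG - e) * (Real.log n') ^ 2 / (θ * Real.log (Real.log n')) ≤ w ∧
      ∀ m ∈ Ioc n' (n' + w), ω ∉ E m := by
  classical
  have hG := GG_pos
  have tl2 : Tendsto (fun n : ℕ => Real.log (Real.log (n : ℝ))) atTop atTop :=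
    Real.tendsto_log_atTop.comp tlog
  obtain ⟨D, hDdef⟩ : ∃ D : ℕ → ℝ, D = fun n : ℕ => θ * Real.log (Real.log n) := ⟨_, rfl⟩
  have hD : Slow D := by
    rw [hDdef]
    exact slow_loglog θ hθ
  obtain ⟨κ, c, η, hκ, hc, hcG, hη, hη1, hpt⟩ := point D hD GG e hG he heG
  obtain ⟨η', hη'⟩ : ∃ η', η' = min (η / 2) ε := ⟨_, rfl⟩
  have hη'0 : 0 < η' := by rw [hη']; exact lt_min (by linarith) hε
  have hη'1 : η' ≤ η / 2 := by rw [hη']; exact min_le_left _ _
  have hη'2 : η' ≤ ε := by rw [hη']; exact min_le_right _ _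
  obtain ⟨n₁, hn₁⟩ := eventually_atTop.1 hP1
  obtain ⟨n₂, hn₂⟩ := eventually_atTop.1 hP2
  have key := core (μ := μ) κ c η' hκ hc hcG hη'0 (by linarith) (fun p => (hm p).compl)
    (compl_indep hE) (fun n' w => (GG - e) * (Real.log n') ^ 2 / D n' ≤ w) ?_
  · filter_upwards [key] with ω hω
    filter_upwards [hω, eventually_ge_atTop 1] with x hx hx1
    obtain ⟨n', w, g1, g2, g3, g4⟩ := hx
    rw [hDdef] at g3
    refine ⟨n', w, ?_, g2, g3, g4⟩
    refine le_trans ?_ g1
    exact Real.rpow_le_rpow_of_exponent_le (by exact_mod_cast hx1) (by linarith)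
  · filter_upwards [hpt, eventually_ge_atTop (max n₁ n₂), tlog.eventually_ge_atTop (max (2 / η) 4),
      tl2.eventually_ge_atTop (16 * GG / η / θ), tl2.eventually_ge_atTop 1, hD.slow η hη,
      logsq c] with n hp k1 k2 k3 k4 k5 k6 s4
    obtain ⟨n', w, h1, h2, h3, h4⟩ := hp s4
    obtain ⟨w', hw'⟩ : ∃ w' : ℕ, w' = ⌈(GG - e) * (Real.log n') ^ 2 / D n'⌉₊ := ⟨_, rfl⟩
    have hw'w : w' ≤ w := by rw [hw']; exact Nat.ceil_le.2 h3
    refine ⟨n', w', h1, by omega, by rw [hw']; exact Nat.le_ceil _, ?_⟩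
    obtain ⟨L, hL⟩ : ∃ L : ℝ, L = Real.log n := ⟨_, rfl⟩
    rw [← hL] at k2 k3 k4 h4 ⊢
    have q1 : 2 / η ≤ L := (le_max_left _ _).trans k2
    have q2 : 4 ≤ L := (le_max_right _ _).trans k2
    have hL0 : 0 < L := by linarith
    have hn0 : (0 : ℝ) < n := by
      rcases Nat.eq_zero_or_pos n with h | h
      · rw [h] at hL; simp at hL; linarith
      · exact_mod_cast h
    have hYn : ⌊c * (Real.log n) ^ 2⌋₊ ≤ n := by
      have := (Nat.floor_le (show 0 ≤ c * (Real.log n) ^ 2 by positivity)).trans k6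
      exact_mod_cast this
    have hrange : ∀ m ∈ Ioc n' (n' + w'), n ≤ m ∧ m ≤ 2 * n := by
      intro m hmm
      rw [Finset.mem_Ioc] at hmm
      omega
    have hD0 : 0 < D n := by
      rw [hDdef]
      simp only
      rw [← hL]
      apply mul_pos hθ
      linarith
    -- the factors
    have hfac : ∀ m ∈ Ioc n' (n' + w'), Real.exp (-(2 / L + (if m.Prime then (1 + η) * D n else 0))) ≤
        μ.real (E m)ᶜ := by
      intro m hmm
      obtain ⟨r1, r2⟩ := hrange m hmm
      split_ifs with hprime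
      · refine le_trans ?_ (hn₁ m (((le_max_left _ _).trans k1).trans r1) hprime)
        apply Real.exp_le_exp.2
        have h5 := (abs_le.1 (k5 m r1 r2)).2
        have h6 : D m = θ * Real.log (Real.log m) := by rw [hDdef]
        rw [← h6]
        have h7 : 0 ≤ 2 / L := by positivity
        linarith
      · refine le_trans ?_ (hn₂ m (((le_max_right _ _).trans k1).trans r1) hprime)
        have hlm : L ≤ Real.log m := by
          rw [hL]
          exact Real.log_le_log hn0 (by exact_mod_cast r1)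
        obtain ⟨y, hy⟩ : ∃ y : ℝ, y = 1 / Real.log m := ⟨_, rfl⟩
        have hy0 : 0 < y := by rw [hy]; apply div_pos one_pos; linarith
        have hyL : y ≤ 1 / L := by rw [hy]; exact one_div_le_one_div_of_le hL0 hlm
        have hy4 : y ≤ 1 / 4 := hyL.trans (one_div_le_one_div_of_le (by norm_num) q2)
        rw [← hy]
        refine le_trans ?_ (one_sub_ge y hy0.le (by linarith))
        apply Real.exp_le_exp.2
        have h8 : 2 / L = 2 * (1 / L) := by ring
        rw [add_zero, h8]
        nlinarith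
    -- the additive cost
    have hcost : (w' : ℝ) * (2 / L) ≤ 3 / 2 * η * L := by
      have hn'0 : (n : ℝ) ≤ n' := by exact_mod_cast h1
      have hn'2 : (n' : ℝ) ≤ 2 * n := by exact_mod_cast (by omega : n' ≤ 2 * n)
      have hl1 : L ≤ Real.log n' := by rw [hL]; exact Real.log_le_log hn0 hn'0
      have hl2 : Real.log n' ≤ L + 1 := by
        have := Real.log_le_log (by linarith) hn'2
        rw [Real.log_mul (by norm_num) hn0.ne'] at this
        have h8 := Real.log_two_lt_d9
        rw [hL]
        linarith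
      have hDn' : 16 * GG / η ≤ D n' := by
        rw [hDdef]
        simp only
        have h9 : Real.log L ≤ Real.log (Real.log n') := Real.log_le_log hL0 hl1
        have h10 : 16 * GG / η / θ ≤ Real.log (Real.log n') := k3.trans h9
        rw [div_le_iff₀ hθ] at h10
        linarith
      have hDn'0 : 0 < D n' := lt_of_lt_of_le (by positivity) hDn'
      have h11 : (w' : ℝ) ≤ (GG - e) * (Real.log n') ^ 2 / D n' + 1 := by
        rw [hw']
        apply (Nat.ceil_lt_add_one _).le
        apply div_nonneg _ hDn'0.le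
        apply mul_nonneg (by linarith) (sq_nonneg _)
      have h12 : (GG - e) * (Real.log n') ^ 2 / D n' ≤ η / 4 * L ^ 2 := by
        rw [div_le_iff₀ hDn'0]
        have h13 : (Real.log n') ^ 2 ≤ 4 * L ^ 2 := by nlinarith
        have h14 : (GG - e) * (Real.log n') ^ 2 ≤ GG * (4 * L ^ 2) := by
          apply mul_le_mul (by linarith) h13 (sq_nonneg _) hG.le
        have h15 : 16 * GG ≤ η * D n' := by
          rw [div_le_iff₀ hη] at hDn'
          linarith
        have h16 : 0 ≤ L ^ 2 := sq_nonneg L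
        nlinarith [mul_le_mul_of_nonneg_right h15 h16]
      have h17 : 2 ≤ η * L := by
        rw [div_le_iff₀ hη] at q1
        linarith
      rw [mul_div_assoc', div_le_iff₀ hL0]
      nlinarith
    have hcard : ((PW n' w').card : ℝ) ≤ (PW n' w).card := by
      have : (PW n' w').card ≤ (PW n' w).card := by
        apply Finset.card_le_card
        intro p hp
        rw [mem_PW] at hp ⊢
        exact ⟨⟨hp.1.1, by omega⟩, hp.2⟩
      exact_mod_cast this
    calc Real.exp (-((1 - 3 * η') * L)) ≤ Real.exp (-(∑ m ∈ Ioc n' (n' + w'), (2 / L +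
            (if m.Prime then (1 + η) * D n else 0)))) := by
          apply Real.exp_le_exp.2
          rw [neg_le_neg_iff, Finset.sum_add_distrib, Finset.sum_const, Nat.card_Ioc,
            ← Finset.sum_filter, Finset.sum_const, nsmul_eq_mul, nsmul_eq_mul, Nat.add_sub_cancel_left]
          have e1 : (((Ioc n' (n' + w')).filter Nat.Prime).card : ℝ) * ((1 + η) * D n) ≤
              (1 - 3 * η) * L := by
            have e2 : (((Ioc n' (n' + w')).filter Nat.Prime).card : ℝ) = (PW n' w').card := rfl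
            rw [e2]
            refine le_trans ?_ h4
            have e3 : 0 ≤ (1 + η) * D n := by positivity
            calc ((PW n' w').card : ℝ) * ((1 + η) * D n) ≤ (PW n' w).card * ((1 + η) * D n) := by
                  gcongr
              _ = _ := by ring
          have e4 : η' * L ≤ η / 2 * L := by gcongr
          linarith
      _ = ∏ m ∈ Ioc n' (n' + w'), Real.exp (-(2 / L + (if m.Prime then (1 + η) * D n else 0))) := by
          rw [← Finset.sum_neg_distrib, Real.exp_sum]
      _ ≤ _ := Finset.prod_le_prod (fun m _ => (Real.exp_pos _).le) hfac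

end Pool.Agent.U395.RP
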