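import Mathlib
import Pool.Agent.U395.RP.Conv
import Pool.Agent.U395.RP.LowA
import Pool.Agent.U395.RP.LowB

set_option autoImplicit false

/-! # The three statements -/

open MeasureTheory ProbabilityTheory Filter Finset Topology
open Pool.Agent.U839.Thin (GG GG_pos tlog)

namespace Pool.Agent.U395.RP

variable {Ω : Type*} [MeasurableSpace Ω] {μ : Measure Ω} [IsProbabilityMeasure μ]

/-- constant rate, upper bound -/
theorem finA_up (α : ℝ) (h0 : 0 ≤ α) (h1 : α < 1) {E : ℕ → Set Ω} (hm : ∀ n, MeasurableSet (E n))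
    (hE : iIndepSet E μ)
    (hP : ∀ᶠ n : ℕ in atTop, μ.real (E n) = (if n.Prime then α else 0) + (1 - α) / Real.log n) :
    ∀ᵐ ω ∂μ, (∃ c : ℝ, 0 < c ∧ ∀ᶠ n : ℕ in atTop, ∃ m : ℕ, n < m ∧
        (m : ℝ) ≤ n + c * (Real.log n) ^ ((2 : ℝ) + 0) ∧ m ∈ {n | ω ∈ E n}) ∧
      ∀ ε : ℝ, 0 < ε → ∀ᶠ X : ℕ in atTop, (G {n | ω ∈ E n} X : ℝ) ≤
        (1 / (1 - α) + ε) * (Real.log X) ^ 2 := by
  have hα : 0 < 1 - α := by linarith
  have hP2 : ∀ᶠ n : ℕ in atTop, (1 - α) / (Real.log n) ^ ((1 : ℝ) + 0) ≤ μ.real (E n) := by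
    filter_upwards [hP] with n hn
    rw [hn, add_zero, Real.rpow_one]
    split_ifs <;> linarith
  have u1 : ∀ j : ℕ, ∀ᵐ ω ∂μ, ∀ᶠ n : ℕ in atTop, ∃ m : ℕ, n < m ∧
      (m : ℝ) ≤ n + ((1 + 1 / ((j : ℝ) + 1)) / (1 - α)) * (Real.log n) ^ ((2 : ℝ) + 0) ∧ ω ∈ E m := by
    intro j
    apply up (1 - α) 0 hα le_rfl hm hE hP2
    rw [div_mul_cancel₀ _ hα.ne']
    have : 0 < 1 / ((j : ℝ) + 1) := by positivity
    linarith
  rw [← ae_all_iff] at u1
  filter_upwards [u1] with ω hu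
  have hcj : ∀ j : ℕ, 0 < (1 + 1 / ((j : ℝ) + 1)) / (1 - α) := fun j => by positivity
  refine ⟨⟨_, hcj 0, hu 0⟩, fun ε hε => ?_⟩
  have hQ := inf_of {n | ω ∈ E n} _ (hu 0)
  obtain ⟨j, hj⟩ := exists_nat_gt (1 / (ε * (1 - α)))
  have hj1 : (1 + 1 / ((j : ℝ) + 1)) / (1 - α) ≤ 1 / (1 - α) + ε := by
    have h2 : 1 / ((j : ℝ) + 1) ≤ ε * (1 - α) := by
      rw [div_lt_iff₀ (by positivity)] at hj
      rw [div_le_iff₀ (by positivity)]
      have : 0 < ε * (1 - α) := by positivity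
      nlinarith
    rw [add_div]
    have : 1 / ((j : ℝ) + 1) / (1 - α) ≤ ε := by
      rw [div_le_iff₀ hα]
      exact h2
    linarith
  filter_upwards [conv_up {n | ω ∈ E n} hQ _ 0 (hcj j) le_rfl (hu j)] with X hX
  rw [add_zero, Real.rpow_two] at hX
  refine hX.trans ?_
  gcongr

/-- constant rate, lower bound -/
theorem finA_low (α : ℝ) (h0 : 0 ≤ α) (h1 : α < 1) {E : ℕ → Set Ω} (hm : ∀ n, MeasurableSet (E n))
    (hE : iIndepSet E μ)
    (hP : ∀ᶠ n : ℕ in atTop, μ.real (E n) = (if n.Prime then α else 0) + (1 - α) / Real.log n) :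
    ∀ᵐ ω ∂μ, ∀ ε : ℝ, 0 < ε → ∀ᶠ X : ℕ in atTop,
      (1 / ((1 - α) + -Real.log (1 - α) / GG) - ε) * (Real.log X) ^ 2 ≤ G {n | ω ∈ E n} X := by
  have hG := GG_pos
  have hα : 0 < 1 - α := by linarith
  have hd0 : 0 ≤ -Real.log (1 - α) := by
    have := Real.log_nonpos hα.le (by linarith)
    linarith
  obtain ⟨B, hB⟩ : ∃ B, B = (1 - α) + -Real.log (1 - α) / GG := ⟨_, rfl⟩
  have hB0 : 0 < B := by rw [hB]; positivity
  have hs : ∀ j : ℕ, 0 < 1 / ((j : ℝ) + 2) ∧ 1 / ((j : ℝ) + 2) < 1 := by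
    intro j
    have hj : (0 : ℝ) ≤ j := Nat.cast_nonneg j
    refine ⟨by positivity, ?_⟩
    rw [div_lt_one (by positivity)]
    linarith
  have l1 : ∀ j : ℕ, ∀ᵐ ω ∂μ, ∀ᶠ x : ℕ in atTop, ∃ n' w : ℕ,
      (x : ℝ) ^ (1 - 1 / ((j : ℝ) + 2)) ≤ n' ∧ n' + w ≤ 2 * x ∧
      ((1 - 1 / ((j : ℝ) + 2)) / B) * (Real.log n') ^ 2 - 1 ≤ w ∧
      ∀ m ∈ Ioc n' (n' + w), ω ∉ E m := by
    intro j
    apply lowA α h0 h1 hm hE hP _ _ _ _ (hs j).1
    · apply div_pos _ hB0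
      linarith [(hs j).2]
    · rw [← hB, div_mul_cancel₀ _ hB0.ne']
      linarith [(hs j).1]
  rw [← ae_all_iff] at l1
  filter_upwards [l1, finA_up α h0 h1 hm hE hP] with ω hl hu ε hε
  obtain ⟨⟨c, hc, hw⟩, -⟩ := hu
  have hQ := inf_of {n | ω ∈ E n} _ hw
  rw [← hB]
  obtain ⟨j, hj⟩ := exists_nat_gt ((6 / B + 1) / ε)
  obtain ⟨s, hsdef⟩ : ∃ s : ℝ, s = 1 / ((j : ℝ) + 2) := ⟨_, rfl⟩
  obtain ⟨hs0, hs1⟩ := hs j
  rw [← hsdef] at hs0 hs1
  have hsε : s * (6 / B + 1) ≤ ε := by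
    rw [hsdef, one_div, inv_mul_le_iff₀ (by positivity)]
    rw [div_lt_iff₀ hε] at hj
    nlinarith
  have hl' := hl j
  rw [← hsdef] at hl'
  filter_upwards [conv_low {n | ω ∈ E n} hQ c 0 s hs1 hw _ hl', log_left s hs0 hs1,
    tlog.eventually_ge_atTop 1, tlog.eventually_ge_atTop (1 / s)] with X g1 g2 g3 g4
  obtain ⟨n', w, k1, k2, k3, k4⟩ := g1
  have k5 := g2 n' k1
  have k6 : (w : ℝ) ≤ G {n | ω ∈ E n} X := by exact_mod_cast k4
  refine le_trans ?_ (k3.trans k6)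
  obtain ⟨L, hL⟩ : ∃ L, L = Real.log X := ⟨_, rfl⟩
  rw [← hL] at g3 g4 k5 ⊢
  have hL0 : 0 < L := by linarith
  have h5 : ((1 - s) ^ 2 * L) ^ 2 ≤ (Real.log n') ^ 2 := by
    apply pow_le_pow_left₀ (by positivity) k5
  have h6 : (1 - s) / B * ((1 - s) ^ 2 * L) ^ 2 ≤ (1 - s) / B * (Real.log n') ^ 2 := by
    have : 0 ≤ (1 - s) / B := by apply div_nonneg _ hB0.le; linarith
    gcongr
  have h7 : 1 - 5 * s ≤ (1 - s) ^ 5 := by
    have := one_add_mul_le_pow (show (-2 : ℝ) ≤ -s by linarith) 5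
    push_cast at this
    linarith
  have h8 : (1 - s) / B * ((1 - s) ^ 2 * L) ^ 2 = (1 - s) ^ 5 / B * L ^ 2 := by ring
  have h9 : (1 - 5 * s) / B * L ^ 2 ≤ (1 - s) ^ 5 / B * L ^ 2 := by gcongr
  have h10 : 1 ≤ s * L ^ 2 := by
    rw [div_le_iff₀ hs0] at g4
    nlinarith
  have h11 : (1 / B - ε) ≤ (1 - 5 * s) / B - s := by
    have : (1 - 5 * s) / B - s = 1 / B - s * (5 / B + 1) := by ring
    rw [this]
    have h12 : s * (5 / B + 1) ≤ s * (6 / B + 1) := by gcongr; norm_num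
    linarith
  have h12 : (1 / B - ε) * L ^ 2 ≤ ((1 - 5 * s) / B - s) * L ^ 2 := by gcongr
  nlinarith

/-- the rate at least `(log n)^(-θ)` -/
theorem finB (θ : ℝ) (hθ : 0 < θ) (t : ℕ → ℝ) {E : ℕ → Set Ω} (hm : ∀ n, MeasurableSet (E n))
    (hE : iIndepSet E μ)
    (hP : ∀ᶠ n : ℕ in atTop, μ.real (E n) = (if n.Prime then 1 - t n else 0) + t n / Real.log n)
    (ht : ∀ᶠ n : ℕ in atTop, 1 / (Real.log n) ^ θ ≤ t n ∧ t n ≤ 1) :
    ∀ᵐ ω ∂μ, {n | ω ∈ E n}.Infinite ∧ ∀ ε : ℝ, 0 < ε → ∀ᶠ X : ℕ in atTop,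
      (GG / θ - ε) * ((Real.log X) ^ 2 / Real.log (Real.log X)) ≤ G {n | ω ∈ E n} X ∧
      (G {n | ω ∈ E n} X : ℝ) ≤ (1 + ε) * (Real.log X) ^ (2 + θ) := by
  have hG := GG_pos
  have tl2 : Tendsto (fun n : ℕ => Real.log (Real.log (n : ℝ))) atTop atTop :=
    Real.tendsto_log_atTop.comp tlog
  have hPu : ∀ᶠ n : ℕ in atTop, 1 / (Real.log n) ^ (1 + θ) ≤ μ.real (E n) := by
    filter_upwards [hP, ht, tlog.eventually_ge_atTop 1] with n h1 h2 h3
    have hL : 0 < Real.log n := by linarith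
    have h4 : 1 / (Real.log n) ^ (1 + θ) ≤ t n / Real.log n := by
      rw [Real.rpow_add hL, Real.rpow_one, mul_comm, ← div_div]
      have := h2.1
      gcongr
    rw [h1]
    split_ifs
    · linarith [h2.2]
    · linarith
  have u1 : ∀ j : ℕ, ∀ᵐ ω ∂μ, ∀ᶠ n : ℕ in atTop, ∃ m : ℕ, n < m ∧
      (m : ℝ) ≤ n + (1 + 1 / ((j : ℝ) + 1)) * (Real.log n) ^ (2 + θ) ∧ ω ∈ E m := by
    intro j
    apply up 1 θ one_pos hθ.le hm hE hPu
    have : 0 < 1 / ((j : ℝ) + 1) := by positivity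
    linarith
  have hs : ∀ j : ℕ, 0 < 1 / ((j : ℝ) + 2) ∧ 1 / ((j : ℝ) + 2) < 1 := by
    intro j
    have hj : (0 : ℝ) ≤ j := Nat.cast_nonneg j
    refine ⟨by positivity, ?_⟩
    rw [div_lt_one (by positivity)]
    linarith
  have hP2 : ∀ᶠ n : ℕ in atTop, ¬ n.Prime → 1 - 1 / Real.log n ≤ μ.real (E n)ᶜ := by
    filter_upwards [hP, ht, tlog.eventually_ge_atTop 1] with n h1 h2 h3 hn
    rw [probReal_compl_eq_one_sub (hm n), h1, if_neg hn]
    have hL : 0 < Real.log n := by linarith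
    have : t n / Real.log n ≤ 1 / Real.log n := by
      have := h2.2
      gcongr
    linarith
  have hP1 : ∀ s : ℝ, 0 < s → ∀ᶠ p : ℕ in atTop, p.Prime →
      Real.exp (-((θ * (1 + s)) * Real.log (Real.log p))) ≤ μ.real (E p)ᶜ := by
    intro s hs
    filter_upwards [hP, ht, tlog.eventually_ge_atTop 2,
      tl2.eventually_ge_atTop (1 / (θ * s))] with p h1 h2 h3 h4 hp
    rw [probReal_compl_eq_one_sub (hm p), h1, if_pos hp]
    have hL : 0 < Real.log p := by linarith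
    have h5 : 1 - (1 - t p + t p / Real.log p) = t p * (1 - 1 / Real.log p) := by ring
    rw [h5]
    have h6 : Real.exp (-(θ * Real.log (Real.log p))) ≤ t p := by
      refine le_trans (le_of_eq ?_) h2.1
      rw [Real.exp_neg, one_div, Real.rpow_def_of_pos hL]
      congr 2
      ring
    have h7 : 1 / 2 ≤ 1 - 1 / Real.log p := by
      have : 1 / Real.log p ≤ 1 / 2 := one_div_le_one_div_of_le (by norm_num) h3
      linarith
    have h8 : Real.exp (-(θ * s * Real.log (Real.log p))) ≤ 1 / 2 := by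
      rw [div_le_iff₀ (by positivity)] at h4
      have h9 : Real.exp (-(θ * s * Real.log (Real.log p))) ≤ Real.exp (-1) := by
        apply Real.exp_le_exp.2
        nlinarith
      refine h9.trans ?_
      have h10 := Real.exp_one_gt_d9
      rw [Real.exp_neg, inv_le_comm₀ (Real.exp_pos _) (by norm_num)]
      norm_num
      linarith
    have ht0 : 0 ≤ t p := le_trans (Real.exp_pos _).le h6
    calc Real.exp (-((θ * (1 + s)) * Real.log (Real.log p))) =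
        Real.exp (-(θ * Real.log (Real.log p))) * Real.exp (-(θ * s * Real.log (Real.log p))) := by
          rw [← Real.exp_add]
          congr 1
          ring
      _ ≤ t p * (1 / 2) := by gcongr
      _ ≤ t p * (1 - 1 / Real.log p) := by gcongr
  have l1 : ∀ j : ℕ, ∀ᵐ ω ∂μ, ∀ᶠ x : ℕ in atTop, ∃ n' w : ℕ,
      (x : ℝ) ^ (1 - 1 / ((j : ℝ) + 2)) ≤ n' ∧ n' + w ≤ 2 * x ∧
      (GG - 1 / ((j : ℝ) + 2) * GG) * (Real.log n') ^ 2 /
        ((θ * (1 + 1 / ((j : ℝ) + 2))) * Real.log (Real.log n')) ≤ w ∧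
      ∀ m ∈ Ioc n' (n' + w), ω ∉ E m := by
    intro j
    obtain ⟨hs0, hs1⟩ := hs j
    apply lowB (θ * (1 + 1 / ((j : ℝ) + 2))) (by positivity) hm hE (hP1 _ hs0) hP2 _
      (by positivity) (by nlinarith) _ hs0
  rw [← ae_all_iff] at u1 l1
  filter_upwards [u1, l1] with ω hu hl
  have hQ := inf_of {n | ω ∈ E n} _ (hu 0)
  refine ⟨hQ, fun ε hε => ?_⟩
  have hupper : ∀ᶠ X : ℕ in atTop, (G {n | ω ∈ E n} X : ℝ) ≤ (1 + ε) * (Real.log X) ^ (2 + θ) := by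
    obtain ⟨j, hj⟩ := exists_nat_gt (1 / ε)
    filter_upwards [conv_up {n | ω ∈ E n} hQ _ θ (show 0 < 1 + 1 / ((j : ℝ) + 1) by positivity)
      hθ.le (hu j)] with X hX
    refine hX.trans ?_
    have h2 : 1 / ((j : ℝ) + 1) ≤ ε := by
      rw [div_lt_iff₀ hε] at hj
      rw [div_le_iff₀ (by positivity)]
      nlinarith
    have h3 : 0 ≤ (Real.log X) ^ (2 + θ) := Real.rpow_nonneg (Real.log_natCast_nonneg X) _
    gcongr
  obtain ⟨j, hj⟩ := exists_nat_gt (6 * GG / θ / ε)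
  obtain ⟨s, hsdef⟩ : ∃ s : ℝ, s = 1 / ((j : ℝ) + 2) := ⟨_, rfl⟩
  obtain ⟨hs0, hs1⟩ := hs j
  rw [← hsdef] at hs0 hs1
  have hsε : s * (6 * GG / θ) ≤ ε := by
    rw [hsdef, one_div, inv_mul_le_iff₀ (by positivity)]
    rw [div_lt_iff₀ hε] at hj
    nlinarith
  have hl' := hl j
  rw [← hsdef] at hl'
  filter_upwards [hupper, conv_low {n | ω ∈ E n} hQ _ θ s hs1 (hu 0) _ hl', log_left s hs0 hs1,
    tlog.eventually_ge_atTop (3 / (1 - s) ^ 2), tlog.eventually_ge_atTop 3] with X g0 g1 g2 g3 g4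
  refine ⟨?_, g0⟩
  obtain ⟨n', w, k1, k2, k3, k4⟩ := g1
  have k5 := g2 n' k1
  have k6 : (w : ℝ) ≤ G {n | ω ∈ E n} X := by exact_mod_cast k4
  refine le_trans ?_ (k3.trans k6)
  obtain ⟨L, hL⟩ : ∃ L, L = Real.log X := ⟨_, rfl⟩
  rw [← hL] at g3 g4 k5 ⊢
  have hL0 : 0 < L := by linarith
  have hs2 : 0 < 1 - s := by linarith
  have hl3 : 3 ≤ Real.log n' := by
    refine le_trans ?_ k5
    rw [div_le_iff₀ (by positivity)] at g3
    linarith
  have hn'0 : (0 : ℝ) < n' := by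
    rcases Nat.eq_zero_or_pos n' with h | h
    · rw [h] at hl3; simp at hl3; linarith
    · exact_mod_cast h
  have hlX : Real.log n' ≤ L := by
    rw [hL]
    exact Real.log_le_log hn'0 (by exact_mod_cast k2)
  have hll0 : 0 < Real.log (Real.log n') := Real.log_pos (by linarith)
  have hll : Real.log (Real.log n') ≤ Real.log L := Real.log_le_log (by linarith) hlX
  have hll1 : 0 < Real.log L := by linarith
  have h5 : ((1 - s) ^ 2 * L) ^ 2 ≤ (Real.log n') ^ 2 :=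
    pow_le_pow_left₀ (by positivity) k5 2
  have h6 : (GG - s * GG) * ((1 - s) ^ 2 * L) ^ 2 / ((θ * (1 + s)) * Real.log L) ≤
      (GG - s * GG) * (Real.log n') ^ 2 / ((θ * (1 + s)) * Real.log (Real.log n')) := by
    have : 0 ≤ GG - s * GG := by nlinarith
    gcongr
  refine le_trans ?_ h6
  have h7 : 1 - 5 * s ≤ (1 - s) ^ 5 := by
    have := one_add_mul_le_pow (show (-2 : ℝ) ≤ -s by linarith) 5
    push_cast at this
    linarith
  have h8 : (GG - s * GG) * ((1 - s) ^ 2 * L) ^ 2 / ((θ * (1 + s)) * Real.log L) =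
      ((1 - s) ^ 5 * GG / (θ * (1 + s))) * (L ^ 2 / Real.log L) := by
    field_simp
    try ring
  rw [h8]
  have h9 : GG / θ - ε ≤ (1 - s) ^ 5 * GG / (θ * (1 + s)) := by
    have h10 : GG / θ - ε ≤ GG / θ * (1 - 6 * s) := by
      have : GG / θ * (1 - 6 * s) = GG / θ - s * (6 * GG / θ) := by ring
      rw [this]
      linarith
    refine h10.trans ?_
    rw [le_div_iff₀ (by positivity)]
    have h11 : GG / θ * (1 - 6 * s) * (θ * (1 + s)) = GG * ((1 - 6 * s) * (1 + s)) := by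
      field_simp
    rw [h11]
    have h12 : (1 - 6 * s) * (1 + s) ≤ (1 - s) ^ 5 := by nlinarith
    nlinarith
  have h13 : 0 ≤ L ^ 2 / Real.log L := by positivity
  gcongr

/-- the rate `(log n)^(-o(1))` -/
theorem finC (t : ℕ → ℝ) {E : ℕ → Set Ω} (hm : ∀ n, MeasurableSet (E n))
    (hE : iIndepSet E μ)
    (hP : ∀ᶠ n : ℕ in atTop, μ.real (E n) = (if n.Prime then 1 - t n else 0) + t n / Real.log n)
    (ht1 : ∀ᶠ n : ℕ in atTop, t n ≤ 1)
    (ht : ∀ θ : ℝ, 0 < θ → ∀ᶠ n : ℕ in atTop, 1 / (Real.log n) ^ θ ≤ t n) :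
    ∀ᵐ ω ∂μ, ∀ ε : ℝ, 0 < ε → ∀ᶠ X : ℕ in atTop,
      (Real.log X) ^ (2 - ε) ≤ G {n | ω ∈ E n} X ∧
      (G {n | ω ∈ E n} X : ℝ) ≤ (Real.log X) ^ (2 + ε) := by
  have hG := GG_pos
  have tl2 : Tendsto (fun n : ℕ => Real.log (Real.log (n : ℝ))) atTop atTop :=
    Real.tendsto_log_atTop.comp tlog
  have h1 : ∀ j : ℕ, ∀ᵐ ω ∂μ, {n | ω ∈ E n}.Infinite ∧ ∀ ε : ℝ, 0 < ε → ∀ᶠ X : ℕ in atTop,
      (GG / (1 / ((j : ℝ) + 1)) - ε) * ((Real.log X) ^ 2 / Real.log (Real.log X)) ≤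
        G {n | ω ∈ E n} X ∧
      (G {n | ω ∈ E n} X : ℝ) ≤ (1 + ε) * (Real.log X) ^ (2 + 1 / ((j : ℝ) + 1)) := by
    intro j
    apply finB (1 / ((j : ℝ) + 1)) (by positivity) t hm hE hP
    filter_upwards [ht (1 / ((j : ℝ) + 1)) (by positivity), ht1] with n a1 a2
    exact ⟨a1, a2⟩
  rw [← ae_all_iff] at h1
  filter_upwards [h1] with ω hω ε hε
  obtain ⟨j, hj⟩ := exists_nat_gt (2 / ε)
  have hj1 : 1 / ((j : ℝ) + 1) ≤ ε / 2 := by
    rw [div_lt_iff₀ hε] at hj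
    rw [div_le_iff₀ (by positivity)]
    nlinarith
  have hup := (hω j).2 1 one_pos
  have hlow := (hω 0).2 (GG / 2) (by positivity)
  have e1 : ∀ᶠ X : ℕ in atTop, (2 : ℝ) ≤ (Real.log X) ^ (ε / 2) :=
    ((tendsto_rpow_atTop (show 0 < ε / 2 by positivity)).comp tlog).eventually_ge_atTop 2
  have e2 : ∀ᶠ X : ℕ in atTop, Real.log (Real.log X) ≤ GG / 2 * (Real.log X) ^ ε := by
    have h3 := (isLittleO_log_rpow_atTop hε).bound (show (0 : ℝ) < GG / 2 by positivity)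
    filter_upwards [tlog.eventually h3, tlog.eventually_ge_atTop 1, tl2.eventually_ge_atTop 0]
      with X a1 a2 a3
    rw [Real.norm_of_nonneg a3, Real.norm_of_nonneg (by positivity)] at a1
    exact a1
  filter_upwards [hup, hlow, e1, e2, tlog.eventually_ge_atTop 1, tl2.eventually_ge_atTop 1]
    with X a1 a2 a3 a4 a5 a6
  obtain ⟨L, hL⟩ : ∃ L, L = Real.log X := ⟨_, rfl⟩
  rw [← hL] at a1 a2 a3 a4 a5 a6 ⊢
  have hL0 : 0 < L := by linarith
  refine ⟨le_trans ?_ a2.1, a1.2.trans ?_⟩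
  · have h5 : GG / (1 / (((0 : ℕ) : ℝ) + 1)) - GG / 2 = GG / 2 := by
      push_cast
      ring
    rw [h5, mul_div_assoc', le_div_iff₀ (by linarith), Real.rpow_sub hL0, Real.rpow_two]
    have h6 : 0 < L ^ ε := Real.rpow_pos_of_pos hL0 ε
    calc L ^ 2 / L ^ ε * Real.log L ≤ L ^ 2 / L ^ ε * (GG / 2 * L ^ ε) := by gcongr
      _ = GG / 2 * L ^ 2 := by field_simp
  · calc (1 + 1) * L ^ (2 + 1 / ((j : ℝ) + 1)) ≤ L ^ (ε / 2) * L ^ (2 + ε / 2) := by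
          have h7 : L ^ (2 + 1 / ((j : ℝ) + 1)) ≤ L ^ (2 + ε / 2) :=
            Real.rpow_le_rpow_of_exponent_le a5 (by linarith)
          have h8 : (1 : ℝ) + 1 ≤ L ^ (ε / 2) := by linarith
          gcongr
      _ = L ^ (2 + ε) := by
          rw [← Real.rpow_add hL0]
          congr 1
          ring

end Pool.Agent.U395.RP
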