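import Mathlib
import Pool.Agent.U395.RP.Conv

set_option autoImplicit false

/-! # Deletions only -/

open MeasureTheory ProbabilityTheory Filter Finset Topology
open Pool.Agent.H510R2.Maier (cntP cntP_eq)
open Pool.Agent.U839.Thin (GG GG_pos tlog compl_indep PW mem_PW Slow point)

namespace Pool.Agent.U395.RP

variable {Ω : Type*} [MeasurableSpace Ω] {μ : Measure Ω} [IsProbabilityMeasure μ]

set_option maxHeartbeats 4000000 in
theorem lowD (D : ℕ → ℝ) (hD : Slow D) {E : ℕ → Set Ω} (hm : ∀ n, MeasurableSet (E n))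
    (hE : iIndepSet E μ)
    (hP1 : ∀ᶠ p : ℕ in atTop, p.Prime → Real.exp (-D p) ≤ μ.real (E p)ᶜ)
    (hP2 : ∀ᶠ n : ℕ in atTop, ¬ n.Prime → μ.real (E n)ᶜ = 1)
    (e : ℝ) (he : 0 < e) (heG : e < GG) (ε : ℝ) (hε : 0 < ε) :
    ∀ᵐ ω ∂μ, ∀ᶠ x : ℕ in atTop, ∃ n' w : ℕ, (x : ℝ) ^ (1 - ε) ≤ n' ∧ n' + w ≤ 2 * x ∧
      (GG - e) * (Real.log n') ^ 2 / D n' ≤ w ∧ ∀ m ∈ Ioc n' (n' + w), ω ∉ E m := by
  classical
  have hG := GG_pos
  obtain ⟨κ, c, η, hκ, hc, hcG, hη, hη1, hpt⟩ := point D hD GG e hG he heG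
  obtain ⟨η', hη'⟩ : ∃ η', η' = min η ε := ⟨_, rfl⟩
  have hη'0 : 0 < η' := by rw [hη']; exact lt_min hη hε
  have hη'1 : η' ≤ η := by rw [hη']; exact min_le_left _ _
  have hη'2 : η' ≤ ε := by rw [hη']; exact min_le_right _ _
  obtain ⟨n₁, hn₁⟩ := eventually_atTop.1 hP1
  obtain ⟨n₂, hn₂⟩ := eventually_atTop.1 hP2
  have key := core (μ := μ) κ c η' hκ hc hcG hη'0 (by linarith) (fun p => (hm p).compl)
    (compl_indep hE) (fun n' w => (GG - e) * (Real.log n') ^ 2 / D n' ≤ w) ?_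
  · filter_upwards [key] with ω hω
    filter_upwards [hω, eventually_ge_atTop 1] with x hx hx1
    obtain ⟨n', w, g1, g2, g3, g4⟩ := hx
    refine ⟨n', w, ?_, g2, g3, g4⟩
    refine le_trans ?_ g1
    exact Real.rpow_le_rpow_of_exponent_le (by exact_mod_cast hx1) (by linarith)
  · filter_upwards [hpt, eventually_ge_atTop (max n₁ n₂), hD.slow η hη, logsq c]
      with n hp k1 k5 k6 s4
    obtain ⟨n', w, h1, h2, h3, h4⟩ := hp s4
    refine ⟨n', w, h1, h2, h3, ?_⟩
    have hL0 : 0 ≤ Real.log n := Real.log_natCast_nonneg n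
    have hYn : ⌊c * (Real.log n) ^ 2⌋₊ ≤ n := by
      have := (Nat.floor_le (show 0 ≤ c * (Real.log n) ^ 2 by positivity)).trans k6
      exact_mod_cast this
    have hfac : ∀ m ∈ Ioc n' (n' + w), Real.exp (-(if m.Prime then (1 + η) * D n else 0)) ≤
        μ.real (E m)ᶜ := by
      intro m hmm
      rw [Finset.mem_Ioc] at hmm
      have r1 : n ≤ m := by omega
      have r2 : m ≤ 2 * n := by omega
      split_ifs with hprime
      · refine le_trans ?_ (hn₁ m (((le_max_left _ _).trans k1).trans r1) hprime)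
        apply Real.exp_le_exp.2
        have h5 := (abs_le.1 (k5 m r1 r2)).2
        linarith
      · rw [hn₂ m (((le_max_right _ _).trans k1).trans r1) hprime, neg_zero, Real.exp_zero]
    calc Real.exp (-((1 - 3 * η') * Real.log n)) ≤ Real.exp (-(∑ m ∈ Ioc n' (n' + w),
            (if m.Prime then (1 + η) * D n else 0))) := by
          apply Real.exp_le_exp.2
          rw [neg_le_neg_iff, ← Finset.sum_filter, Finset.sum_const, nsmul_eq_mul]
          have e2 : (((Ioc n' (n' + w)).filter Nat.Prime).card : ℝ) = (PW n' w).card := rfl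
          rw [e2]
          have e4 : η' * Real.log n ≤ η * Real.log n := by gcongr
          linarith
      _ = ∏ m ∈ Ioc n' (n' + w), Real.exp (-(if m.Prime then (1 + η) * D n else 0)) := by
          rw [← Finset.sum_neg_distrib, Real.exp_sum]
      _ ≤ _ := Finset.prod_le_prod (fun m _ => (Real.exp_pos _).le) hfac

/-- one prime in each dyadic interval -/
theorem exists_q : ∃ q : ℕ → ℕ, ∀ k, (q k).Prime ∧ 2 ^ k < q k ∧ q k ≤ 2 ^ (k + 1) := by
  have h : ∀ k : ℕ, ∃ p : ℕ, p.Prime ∧ 2 ^ k < p ∧ p ≤ 2 ^ (k + 1) := by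
    intro k
    obtain ⟨p, h1, h2, h3⟩ := Nat.exists_prime_lt_and_le_two_mul (2 ^ k) (by positivity)
    exact ⟨p, h1, h2, by rw [pow_succ]; omega⟩
  choose q hq using h
  exact ⟨q, hq⟩

theorem exD (ρ : ℝ) (hρ : 0 < ρ) {E : ℕ → Set Ω} (hm : ∀ n, MeasurableSet (E n))
    (hE : iIndepSet E μ) (hP : ∀ᶠ p : ℕ in atTop, p.Prime → ρ ≤ μ.real (E p)) (r : ℕ)
    (hr : 2 ≤ r) :
    ∀ᵐ ω ∂μ, ∀ᶠ J : ℕ in atTop, ∃ b : ℕ, 2 ^ ((r - 1) * J) < b ∧ b ≤ 2 ^ (r * J) ∧ ω ∈ E b := by
  classical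
  obtain ⟨q, hq⟩ := exists_q
  obtain ⟨n₁, hn₁⟩ := eventually_atTop.1 hP
  have hρ1 : ρ ≤ 1 := by
    obtain ⟨p, hp1, hp2⟩ := Nat.exists_infinite_primes n₁
    exact (hn₁ p hp1 hp2).trans measureReal_le_one
  have hinj : Function.Injective q := by
    intro a b hab
    by_contra hne
    rcases lt_or_gt_of_ne hne with h | h
    · have h1 : 2 ^ (a + 1) ≤ 2 ^ b := Nat.pow_le_pow_right (by norm_num) h
      have := (hq a).2.2
      have := (hq b).2.1
      omega
    · have h1 : 2 ^ (b + 1) ≤ 2 ^ a := Nat.pow_le_pow_right (by norm_num) h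
      have := (hq b).2.2
      have := (hq a).2.1
      omega
  set T : ℕ → Finset ℕ := fun J => (Ico ((r - 1) * J) (r * J)).image q with hT
  set bad : ℕ → Set Ω := fun J => if n₁ ≤ J then ⋂ m ∈ T J, (E m)ᶜ else ∅ with hbad
  have hcard : ∀ J, (T J).card = J := by
    intro J
    rw [hT]
    simp only
    rw [Finset.card_image_of_injective _ hinj, Nat.card_Ico]
    obtain ⟨r', rfl⟩ : ∃ r', r = r' + 1 := ⟨r - 1, by omega⟩
    rw [Nat.add_sub_cancel, add_mul, one_mul]
    omega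
  have hb : ∀ J, μ.real (bad J) ≤ (1 - ρ) ^ J := by
    intro J
    rw [hbad]
    simp only
    split_ifs with hJ
    · have h3 : μ.real (⋂ m ∈ T J, (E m)ᶜ) = ∏ m ∈ T J, μ.real (E m)ᶜ := by
        have := (Pool.Agent.U839.Thin.compl_indep hE).meas_biInter (T J)
        simp only [measureReal_def]
        rw [this, ENNReal.toReal_prod]
      rw [h3]
      have h4 : ∀ m ∈ T J, μ.real (E m)ᶜ ≤ 1 - ρ := by
        intro m hmm
        rw [hT] at hmm
        simp only at hmm
        rw [Finset.mem_image] at hmm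
        obtain ⟨k, hk, rfl⟩ := hmm
        rw [Finset.mem_Ico] at hk
        rw [probReal_compl_eq_one_sub (hm _)]
        have h5 : k < 2 ^ k := Nat.lt_two_pow_self
        have h6 : J ≤ k := by
          have : J ≤ (r - 1) * J := Nat.le_mul_of_pos_left J (by omega)
          omega
        have h7 := hn₁ (q k) (by have := (hq k).2.1; omega) (hq k).1
        linarith
      refine (Finset.prod_le_prod (fun m _ => measureReal_nonneg) h4).trans ?_
      rw [Finset.prod_const, hcard]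
    · simp only [measureReal_empty]
      exact pow_nonneg (by linarith) J
  have hsum : Summable (fun J : ℕ => (1 - ρ) ^ J) :=
    summable_geometric_of_lt_one (by linarith) (by linarith)
  have htot : ∑' J, μ (bad J) ≠ ⊤ := by
    have h5 : ∀ J, μ (bad J) ≤ ENNReal.ofReal ((1 - ρ) ^ J) := by
      intro J
      rw [← ENNReal.ofReal_toReal (measure_ne_top μ (bad J))]
      exact ENNReal.ofReal_le_ofReal (hb J)
    exact ne_top_of_le_ne_top hsum.tsum_ofReal_ne_top (ENNReal.tsum_le_tsum h5)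
  filter_upwards [ae_eventually_notMem htot] with ω hω
  filter_upwards [hω, eventually_ge_atTop n₁] with J hJ hJn
  rw [hbad] at hJ
  simp only [if_pos hJn] at hJ
  simp only [Set.mem_iInter, not_forall] at hJ
  obtain ⟨m, hm1, hm2⟩ := hJ
  rw [Set.notMem_compl_iff] at hm2
  rw [hT] at hm1
  simp only at hm1
  rw [Finset.mem_image] at hm1
  obtain ⟨k, hk, rfl⟩ := hm1
  rw [Finset.mem_Ico] at hk
  refine ⟨q k, ?_, ?_, hm2⟩
  · exact lt_of_le_of_lt (Nat.pow_le_pow_right (by norm_num) hk.1) (hq k).2.1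
  · exact (hq k).2.2.trans (Nat.pow_le_pow_right (by norm_num) hk.2)

end Pool.Agent.U395.RP
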