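import Mathlib
import Pool.Agent.U395.RP.Del

set_option autoImplicit false

/-! # Deletions only: the lower bound for the largest gap -/

open MeasureTheory ProbabilityTheory Filter Finset Topology
open Pool.Agent.U839.Thin (GG GG_pos tlog Slow slow_const slow_loglog)

namespace Pool.Agent.U395.RP

theorem conv_del (Q : Set ℕ) (hQ : Q.Infinite) (s : ℝ) (hs : 0 < s) (hs1 : s < 1) (r : ℕ)
    (hr : 2 ≤ r) (hrs : 1 / (r : ℝ) ≤ s / 2) (R : ℕ → ℕ → Prop)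
    (hw : ∀ᶠ x : ℕ in atTop, ∃ n' w : ℕ, (x : ℝ) ^ (1 - s) ≤ n' ∧ n' + w ≤ 2 * x ∧ R n' w ∧
      ∀ m ∈ Ioc n' (n' + w), m ∉ Q)
    (hex : ∀ᶠ J : ℕ in atTop, ∃ b : ℕ, 2 ^ ((r - 1) * J) < b ∧ b ≤ 2 ^ (r * J) ∧ b ∈ Q) :
    ∀ᶠ X : ℕ in atTop, ∃ n' w : ℕ, (1 - s) ^ 2 * Real.log X ≤ Real.log n' ∧ n' ≤ X ∧ R n' w ∧
      w ≤ G Q X := by
  obtain ⟨a, ha⟩ := hQ.nonempty
  have dlog : Tendsto (fun X : ℕ => Nat.log 2 X) atTop atTop := by
    rw [tendsto_atTop]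
    intro N
    filter_upwards [eventually_ge_atTop (2 ^ N)] with X hX
    exact Nat.le_log_of_pow_le (by norm_num) hX
  have dJ : Tendsto (fun X : ℕ => Nat.log 2 X / r) atTop atTop :=
    (Nat.tendsto_div_const_atTop (by omega)).comp dlog
  have dx : Tendsto (fun J : ℕ => 2 ^ ((r - 1) * J - 1)) atTop atTop := by
    rw [tendsto_atTop]
    intro N
    filter_upwards [eventually_ge_atTop (N + 1)] with J hJ
    have h1 : J - 1 ≤ (r - 1) * J - 1 := by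
      have : J ≤ (r - 1) * J := Nat.le_mul_of_pos_left J (by omega)
      omega
    have h2 : 2 ^ (J - 1) ≤ 2 ^ ((r - 1) * J - 1) := Nat.pow_le_pow_right (by norm_num) h1
    have h3 : J - 1 < 2 ^ (J - 1) := Nat.lt_two_pow_self
    omega
  have dX : Tendsto (fun X : ℕ => 2 ^ ((r - 1) * (Nat.log 2 X / r) - 1)) atTop atTop :=
    dx.comp dJ
  filter_upwards [dX.eventually hw, dJ.eventually hex, dJ.eventually (eventually_ge_atTop 1),
    dX.eventually ((tpow (1 - s) (by linarith)).eventually_ge_atTop (a : ℝ)),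
    tlog.eventually_ge_atTop (4 * r / s), eventually_ge_atTop 1] with X g1 g2 g3 g4 g5 g6
  obtain ⟨J, hJ⟩ : ∃ J, J = Nat.log 2 X / r := ⟨_, rfl⟩
  rw [← hJ] at g1 g2 g3 g4
  obtain ⟨n', w, k1, k2, k3, k4⟩ := g1
  obtain ⟨b, j1, j2, j3⟩ := g2
  have hJ1 : J ≤ (r - 1) * J := Nat.le_mul_of_pos_left J (by omega)
  have hx2 : 2 * 2 ^ ((r - 1) * J - 1) = 2 ^ ((r - 1) * J) := by
    rw [← pow_succ']
    congr 1
    omega
  have hrJ : r * J ≤ Nat.log 2 X := by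
    rw [hJ]
    exact Nat.mul_div_le _ _
  have hX1 : 2 ^ (r * J) ≤ X :=
    (Nat.pow_le_pow_right (by norm_num) hrJ).trans (Nat.pow_log_le_self 2 (by omega))
  have hX2 : X < 2 ^ (r * (J + 1)) := by
    refine lt_of_lt_of_le (Nat.lt_pow_succ_log_self (show 1 < 2 by norm_num) X) ?_
    apply Nat.pow_le_pow_right (by norm_num)
    have : Nat.log 2 X < r * (J + 1) := by
      rw [hJ, mul_add, mul_one]
      have h1 := Nat.div_add_mod (Nat.log 2 X) r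
      have h2 := Nat.mod_lt (Nat.log 2 X) (show r > 0 by omega)
      omega
    omega
  have k5 : a ≤ n' := by exact_mod_cast g4.trans k1
  refine ⟨n', w, ?_, by omega, k3, ?_⟩
  · have hx0 : (0 : ℝ) < ((2 ^ ((r - 1) * J - 1) : ℕ) : ℝ) := by positivity
    have h1 := Real.log_le_log (Real.rpow_pos_of_pos hx0 _) k1
    rw [Real.log_rpow hx0] at h1
    refine le_trans ?_ h1
    have hl2 : 0 < Real.log 2 := Real.log_pos (by norm_num)
    have hl2' : Real.log 2 ≤ 1 := by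
      have := Real.log_two_lt_d9
      linarith
    have h2 : Real.log ((2 ^ ((r - 1) * J - 1) : ℕ) : ℝ) = (((r : ℝ) - 1) * J - 1) * Real.log 2 := by
      rw [Nat.cast_pow, Real.log_pow, Nat.cast_sub (by omega), Nat.cast_mul, Nat.cast_sub (by omega)]
      push_cast
      ring
    have h3 : Real.log X ≤ r * (J + 1) * Real.log 2 := by
      have h4 : (X : ℝ) ≤ ((2 ^ (r * (J + 1)) : ℕ) : ℝ) := by exact_mod_cast hX2.le
      have h5 := Real.log_le_log (by exact_mod_cast (by omega : 0 < X)) h4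
      rw [Nat.cast_pow, Real.log_pow] at h5
      push_cast at h5
      linarith
    have hr0 : (0 : ℝ) < r := by exact_mod_cast (by omega : 0 < r)
    have h6 : (1 - s) * Real.log X ≤ Real.log ((2 ^ ((r - 1) * J - 1) : ℕ) : ℝ) := by
      rw [h2]
      have h7 : 4 * (r : ℝ) ≤ s * Real.log X := by
        rw [div_le_iff₀ hs] at g5
        linarith
      -- J log 2 ≥ log X / r - log 2
      have h8 : Real.log X / r ≤ (J + 1) * Real.log 2 := by
        rw [div_le_iff₀ hr0]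
        linarith
      have h9 : Real.log X / r ≤ s / 2 * Real.log X := by
        have : Real.log X / r = 1 / r * Real.log X := by ring
        rw [this]
        have h10 : 0 ≤ Real.log X := Real.log_natCast_nonneg X
        gcongr
      have h11 : (((r : ℝ) - 1) * J - 1) * Real.log 2 =
          r * ((J + 1) * Real.log 2) - (J + 1) * Real.log 2 - r * Real.log 2 := by ring
      have h12 : (J : ℝ) * Real.log 2 * r ≤ Real.log X := by
        have h13 := Real.log_le_log (by positivity)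
          (show ((2 ^ (r * J) : ℕ) : ℝ) ≤ X by exact_mod_cast hX1)
        rw [Nat.cast_pow, Real.log_pow] at h13
        push_cast at h13
        linarith
      have h14 : (J : ℝ) * Real.log 2 ≤ Real.log X / r := by
        rw [le_div_iff₀ hr0]
        exact h12
      have h15 : (r : ℝ) * Real.log 2 ≤ r := by nlinarith
      have h16 : (2 : ℝ) ≤ r := by exact_mod_cast hr
      rw [h11]
      have h17 : (s / 2) * Real.log X = s * Real.log X / 2 := by ring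
      rw [h17] at h9
      linarith
    have h17 : 0 < 1 - s := by linarith
    calc (1 - s) ^ 2 * Real.log X = (1 - s) * ((1 - s) * Real.log X) := by ring
      _ ≤ _ := by gcongr
  · exact G_ge Q hQ X n' w a b ha k5 (fun m h1 h2 => k4 m (Finset.mem_Ioc.2 ⟨h1, h2⟩)) j3
      (by omega) (by omega)

theorem inf_of_ex (Q : Set ℕ) (r : ℕ) (hr : 2 ≤ r)
    (hex : ∀ᶠ J : ℕ in atTop, ∃ b : ℕ, 2 ^ ((r - 1) * J) < b ∧ b ≤ 2 ^ (r * J) ∧ b ∈ Q) :
    Q.Infinite := by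
  rw [Set.infinite_iff_exists_gt]
  intro N
  obtain ⟨J₀, hJ₀⟩ := eventually_atTop.1 hex
  obtain ⟨b, h1, -, h3⟩ := hJ₀ (max J₀ N) (le_max_left _ _)
  refine ⟨b, h3, ?_⟩
  have h4 : max J₀ N ≤ (r - 1) * max J₀ N := Nat.le_mul_of_pos_left _ (by omega)
  have h5 : (r - 1) * max J₀ N < 2 ^ ((r - 1) * max J₀ N) := Nat.lt_two_pow_self
  have h6 := le_max_right J₀ N
  omega

variable {Ω : Type*} [MeasurableSpace Ω] {μ : Measure Ω} [IsProbabilityMeasure μ]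

theorem finD (D : ℕ → ℝ) (hD : Slow D) (hDm : ∃ N : ℕ, ∀ n m : ℕ, N ≤ n → n ≤ m → D n ≤ D m)
    {E : ℕ → Set Ω} (hm : ∀ n, MeasurableSet (E n)) (hE : iIndepSet E μ) (ρ : ℝ) (hρ : 0 < ρ)
    (hP0 : ∀ᶠ p : ℕ in atTop, p.Prime → ρ ≤ μ.real (E p))
    (hP1 : ∀ᶠ p : ℕ in atTop, p.Prime → Real.exp (-D p) ≤ μ.real (E p)ᶜ)
    (hP2 : ∀ᶠ n : ℕ in atTop, ¬ n.Prime → μ.real (E n)ᶜ = 1) :
    ∀ᵐ ω ∂μ, {n | ω ∈ E n}.Infinite ∧ ∀ ε : ℝ, 0 < ε → ∀ᶠ X : ℕ in atTop,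
      (GG - ε) * ((Real.log X) ^ 2 / D X) ≤ G {n | ω ∈ E n} X := by
  have hG := GG_pos
  obtain ⟨D₀, hD₀, hDpos⟩ := hD.pos
  obtain ⟨N₁, hN₁⟩ := eventually_atTop.1 hDpos
  obtain ⟨N₂, hN₂⟩ := hDm
  have hs : ∀ j : ℕ, 0 < 1 / ((j : ℝ) + 2) ∧ 1 / ((j : ℝ) + 2) < 1 := by
    intro j
    have hj : (0 : ℝ) ≤ j := Nat.cast_nonneg j
    refine ⟨by positivity, ?_⟩
    rw [div_lt_one (by positivity)]
    linarith
  have l1 : ∀ j : ℕ, ∀ᵐ ω ∂μ, ∀ᶠ x : ℕ in atTop, ∃ n' w : ℕ,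
      (x : ℝ) ^ (1 - 1 / ((j : ℝ) + 2)) ≤ n' ∧ n' + w ≤ 2 * x ∧
      (GG - 1 / ((j : ℝ) + 2) * GG) * (Real.log n') ^ 2 / D n' ≤ w ∧
      ∀ m ∈ Ioc n' (n' + w), ω ∉ E m := by
    intro j
    obtain ⟨hs0, hs1⟩ := hs j
    apply lowD D hD hm hE hP1 hP2 _ (by positivity) (by nlinarith) _ hs0
  have l2 : ∀ j : ℕ, ∀ᵐ ω ∂μ, ∀ᶠ J : ℕ in atTop, ∃ b : ℕ,
      2 ^ ((2 * (j + 2) - 1) * J) < b ∧ b ≤ 2 ^ (2 * (j + 2) * J) ∧ ω ∈ E b := by
    intro j
    exact exD ρ hρ hm hE hP0 (2 * (j + 2)) (by omega)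
  rw [← ae_all_iff] at l1 l2
  filter_upwards [l1, l2] with ω hl he
  have hQ : {n | ω ∈ E n}.Infinite := inf_of_ex _ (2 * (0 + 2)) (by omega) (he 0)
  refine ⟨hQ, fun ε hε => ?_⟩
  obtain ⟨j, hj⟩ := exists_nat_gt (5 * GG / ε)
  obtain ⟨s, hsdef⟩ : ∃ s : ℝ, s = 1 / ((j : ℝ) + 2) := ⟨_, rfl⟩
  obtain ⟨hs0, hs1⟩ := hs j
  rw [← hsdef] at hs0 hs1
  have hsε : s * (5 * GG) ≤ ε := by
    rw [hsdef, one_div, inv_mul_le_iff₀ (by positivity)]
    rw [div_lt_iff₀ hε] at hj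
    nlinarith
  have hl' := hl j
  rw [← hsdef] at hl'
  have hrs : 1 / ((2 * (j + 2) : ℕ) : ℝ) ≤ s / 2 := by
    rw [hsdef]
    push_cast
    rw [div_div, mul_comm]
  obtain ⟨N, hN⟩ : ∃ N, N = max (max N₁ N₂) 1 := ⟨_, rfl⟩
  filter_upwards [conv_del {n | ω ∈ E n} hQ s hs0 hs1 (2 * (j + 2)) (by omega) hrs _ hl' (he j),
    tlog.eventually_ge_atTop ((Real.log N + 1) / (1 - s) ^ 2), tlog.eventually_ge_atTop 1]
    with X g1 g3 g4
  obtain ⟨n', w, k5, k2, k3, k4⟩ := g1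
  have k6 : (w : ℝ) ≤ G {n | ω ∈ E n} X := by exact_mod_cast k4
  refine le_trans ?_ (k3.trans k6)
  obtain ⟨L, hL⟩ : ∃ L, L = Real.log X := ⟨_, rfl⟩
  rw [← hL] at g3 g4 k5 ⊢
  have hL0 : 0 < L := by linarith
  have hs2 : 0 < 1 - s := by linarith
  have hlN : Real.log N + 1 ≤ Real.log n' := by
    refine le_trans ?_ k5
    rw [div_le_iff₀ (by positivity)] at g3
    linarith
  have hN1 : (1 : ℝ) ≤ N := by
    rw [hN]
    exact_mod_cast le_max_right _ _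
  have hNn : N ≤ n' := by
    by_contra hcon
    push Not at hcon
    rcases Nat.eq_zero_or_pos n' with h | h
    · rw [h] at hlN
      simp at hlN
      have := Real.log_nonneg hN1
      linarith
    · have h2 : Real.log n' ≤ Real.log N :=
        Real.log_le_log (by exact_mod_cast h) (by exact_mod_cast hcon.le)
      linarith
  have hN1n : N₁ ≤ n' := by
    rw [hN] at hNn
    exact ((le_max_left _ _).trans (le_max_left _ _)).trans hNn
  have hN2n : N₂ ≤ n' := by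
    rw [hN] at hNn
    exact ((le_max_right _ _).trans (le_max_left _ _)).trans hNn
  have hDn' : 0 < D n' := lt_of_lt_of_le hD₀ (hN₁ n' hN1n)
  have hDX : D n' ≤ D X := hN₂ n' X hN2n k2
  have hDX0 : 0 < D X := lt_of_lt_of_le hDn' hDX
  have h5 : ((1 - s) ^ 2 * L) ^ 2 ≤ (Real.log n') ^ 2 :=
    pow_le_pow_left₀ (by positivity) k5 2
  have h6 : (GG - s * GG) * ((1 - s) ^ 2 * L) ^ 2 / D X ≤
      (GG - s * GG) * (Real.log n') ^ 2 / D n' := by
    have : 0 ≤ GG - s * GG := by nlinarith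
    gcongr
  refine le_trans ?_ h6
  have h7 : 1 - 5 * s ≤ (1 - s) ^ 5 := by
    have := one_add_mul_le_pow (show (-2 : ℝ) ≤ -s by linarith) 5
    push_cast at this
    linarith
  have h8 : (GG - s * GG) * ((1 - s) ^ 2 * L) ^ 2 / D X =
      ((1 - s) ^ 5 * GG) * (L ^ 2 / D X) := by ring
  rw [h8]
  have h9 : GG - ε ≤ (1 - s) ^ 5 * GG := by nlinarith
  have h13 : 0 ≤ L ^ 2 / D X := by positivity
  gcongr

/-- constant proportion of deletions -/
theorem finD1 (d : ℝ) (hd : 0 < d)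
    {E : ℕ → Set Ω} (hm : ∀ n, MeasurableSet (E n)) (hE : iIndepSet E μ) (ρ : ℝ) (hρ : 0 < ρ)
    (hP0 : ∀ᶠ p : ℕ in atTop, p.Prime → ρ ≤ μ.real (E p))
    (hP1 : ∀ᶠ p : ℕ in atTop, p.Prime → Real.exp (-d) ≤ μ.real (E p)ᶜ)
    (hP2 : ∀ᶠ n : ℕ in atTop, ¬ n.Prime → μ.real (E n)ᶜ = 1) :
    ∀ᵐ ω ∂μ, {n | ω ∈ E n}.Infinite ∧ ∀ ε : ℝ, 0 < ε → ∀ᶠ X : ℕ in atTop,
      (GG / d - ε) * (Real.log X) ^ 2 ≤ G {n | ω ∈ E n} X := by
  have h := finD (fun _ => d) (slow_const d hd) ⟨0, fun _ _ _ _ => le_rfl⟩ hm hE ρ hρ hP0 hP1 hP2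
  filter_upwards [h] with ω hω
  refine ⟨hω.1, fun ε hε => ?_⟩
  filter_upwards [hω.2 (ε * d) (by positivity)] with X hX
  refine le_trans (le_of_eq ?_) hX
  field_simp

/-- the proportion of deletions at least `(log p)^(-θ)` -/
theorem finD2 (θ : ℝ) (hθ : 0 < θ)
    {E : ℕ → Set Ω} (hm : ∀ n, MeasurableSet (E n)) (hE : iIndepSet E μ) (ρ : ℝ) (hρ : 0 < ρ)
    (hP0 : ∀ᶠ p : ℕ in atTop, p.Prime → ρ ≤ μ.real (E p))
    (hP1 : ∀ᶠ p : ℕ in atTop, p.Prime → 1 / (Real.log p) ^ θ ≤ μ.real (E p)ᶜ)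
    (hP2 : ∀ᶠ n : ℕ in atTop, ¬ n.Prime → μ.real (E n)ᶜ = 1) :
    ∀ᵐ ω ∂μ, {n | ω ∈ E n}.Infinite ∧ ∀ ε : ℝ, 0 < ε → ∀ᶠ X : ℕ in atTop,
      (GG / θ - ε) * ((Real.log X) ^ 2 / Real.log (Real.log X)) ≤ G {n | ω ∈ E n} X := by
  have hP1' : ∀ᶠ p : ℕ in atTop, p.Prime →
      Real.exp (-(θ * Real.log (Real.log p))) ≤ μ.real (E p)ᶜ := by
    filter_upwards [hP1, tlog.eventually_ge_atTop 1] with p h1 h2 hp
    refine le_trans (le_of_eq ?_) (h1 hp)
    have hL : 0 < Real.log p := by linarith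
    rw [Real.exp_neg, one_div, Real.rpow_def_of_pos hL]
    congr 2
    ring
  have hmono : ∃ N : ℕ, ∀ n m : ℕ, N ≤ n → n ≤ m →
      θ * Real.log (Real.log n) ≤ θ * Real.log (Real.log m) := by
    obtain ⟨N, hN⟩ := eventually_atTop.1 (tlog.eventually_ge_atTop 1)
    refine ⟨max N 1, fun n m h1 h2 => ?_⟩
    have h3 := hN n ((le_max_left _ _).trans h1)
    have h4 : 1 ≤ n := (le_max_right _ _).trans h1
    have h5 : Real.log n ≤ Real.log m :=
      Real.log_le_log (by exact_mod_cast h4) (by exact_mod_cast h2)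
    have h6 : Real.log (Real.log n) ≤ Real.log (Real.log m) := Real.log_le_log (by linarith) h5
    gcongr
  have h := finD (fun n => θ * Real.log (Real.log n)) (slow_loglog θ hθ) hmono hm hE ρ hρ hP0 hP1' hP2
  have tl2 : Tendsto (fun n : ℕ => Real.log (Real.log (n : ℝ))) atTop atTop :=
    Real.tendsto_log_atTop.comp tlog
  filter_upwards [h] with ω hω
  refine ⟨hω.1, fun ε hε => ?_⟩
  filter_upwards [hω.2 (ε * θ) (by positivity), tl2.eventually_ge_atTop 1] with X hX h2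
  refine le_trans (le_of_eq ?_) hX
  have h3 : Real.log (Real.log X) ≠ 0 := by linarith
  field_simp

end Pool.Agent.U395.RP
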