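import Mathlib
import Pool.Agent.U395.RP.Conv

set_option autoImplicit false

/-! # Empty windows for very rare deletions -/

open MeasureTheory ProbabilityTheory Filter Finset Topology
open Pool.Agent.H510R2.Maier (cntP cntP_eq)
open Pool.Agent.U839.Thin (GG GG_pos tlog compl_indep one_sub_ge PW mem_PW Slow point)

namespace Pool.Agent.U395.RP

theorem slow_logpow (β : ℝ) (h0 : 0 < β) (h1 : β < 1) : Slow (fun n => (Real.log n) ^ β) := by
  refine ⟨⟨1, one_pos, ?_⟩, ?_, ?_⟩
  · filter_upwards [tlog.eventually_ge_atTop 1] with n hn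
    exact Real.one_le_rpow hn h0.le
  · have h2 : Tendsto (fun n : ℕ => (Real.log (n : ℝ)) ^ (-(1 - β))) atTop (𝓝 0) :=
      (tendsto_rpow_neg_atTop (show 0 < 1 - β by linarith)).comp tlog
    refine h2.congr' ?_
    filter_upwards [tlog.eventually_ge_atTop 1] with n hn
    have hL : 0 < Real.log n := by linarith
    rw [show -(1 - β) = β - 1 by ring, Real.rpow_sub hL, Real.rpow_one]
  · intro ε hε
    filter_upwards [shift β ε hε, tlog.eventually_ge_atTop 1, eventually_ge_atTop 1]
      with n h2 h3 h4 m h5 h6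
    have hn0 : (0 : ℝ) < n := by exact_mod_cast h4
    have hm2 : (m : ℝ) ≤ 2 * n := by exact_mod_cast h6
    have hnm : (n : ℝ) ≤ m := by exact_mod_cast h5
    have hl1 : Real.log n ≤ Real.log m := Real.log_le_log hn0 hnm
    have hl2 : Real.log m ≤ Real.log n + 1 := by
      have := Real.log_le_log (by linarith) hm2
      rw [Real.log_mul (by norm_num) hn0.ne'] at this
      have h8 := Real.log_two_lt_d9
      linarith
    have h7 : (Real.log n) ^ β ≤ (Real.log m) ^ β := Real.rpow_le_rpow (by linarith) hl1 h0.le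
    have h8 : (Real.log m) ^ β ≤ (Real.log n + 1) ^ β :=
      Real.rpow_le_rpow (by linarith) hl2 h0.le
    rw [abs_of_nonneg (by linarith)]
    linarith

variable {Ω : Type*} [MeasurableSpace Ω] {μ : Measure Ω} [IsProbabilityMeasure μ]

set_option maxHeartbeats 4000000 in
theorem lowE (g β : ℝ) (hg : 0 ≤ g) (hβ : 0 < β) (hβ1 : g + β < 1) {E : ℕ → Set Ω}
    (hm : ∀ n, MeasurableSet (E n)) (hE : iIndepSet E μ)
    (hP1 : ∀ᶠ p : ℕ in atTop, p.Prime → Real.exp (-(Real.log p) ^ (g + β)) ≤ μ.real (E p)ᶜ)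
    (hP2 : ∀ᶠ n : ℕ in atTop, ¬ n.Prime →
      1 - (Real.log n) ^ (g + β / 2) / Real.log n ≤ μ.real (E n)ᶜ) :
    ∀ᵐ ω ∂μ, ∀ᶠ x : ℕ in atTop, ∃ n' w : ℕ, (x : ℝ) ^ (1 - 1 / 2 : ℝ) ≤ n' ∧ n' + w ≤ 2 * x ∧
      (GG / 2) * (Real.log n') ^ 2 / (Real.log n') ^ (g + β) ≤ w ∧
      ∀ m ∈ Ioc n' (n' + w), ω ∉ E m := by
  classical
  have hG := GG_pos
  obtain ⟨D, hDdef⟩ : ∃ D : ℕ → ℝ, D = fun n : ℕ => (Real.log n) ^ (g + β) := ⟨_, rfl⟩
  have hD : Slow D := by
    rw [hDdef]
    exact slow_logpow (g + β) (by linarith) hβ1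
  obtain ⟨κ, c, η, hκ, hc, hcG, hη, hη1, hpt⟩ := point D hD GG (GG / 2) hG (by linarith)
    (by linarith)
  have hGG2 : GG - GG / 2 = GG / 2 := by ring
  rw [hGG2] at hpt
  obtain ⟨n₁, hn₁⟩ := eventually_atTop.1 hP1
  obtain ⟨n₂, hn₂⟩ := eventually_atTop.1 hP2
  have tb : Tendsto (fun n : ℕ => (Real.log (n : ℝ)) ^ (β / 2)) atTop atTop :=
    (tendsto_rpow_atTop (show 0 < β / 2 by linarith)).comp tlog
  have tz : Tendsto (fun n : ℕ => (Real.log (n : ℝ)) ^ (-(1 - (g + β / 2)))) atTop (𝓝 0) :=
    (tendsto_rpow_neg_atTop (show 0 < 1 - (g + β / 2) by linarith)).comp tlog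
  have key := core (μ := μ) κ c (η / 2) hκ hc hcG (by linarith) (by linarith)
    (fun p => (hm p).compl) (compl_indep hE)
    (fun n' w => (GG / 2) * (Real.log n') ^ 2 / D n' ≤ w) ?_
  · filter_upwards [key] with ω hω
    filter_upwards [hω, eventually_ge_atTop 1] with x hx hx1
    obtain ⟨n', w, g1, g2, g3, g4⟩ := hx
    rw [hDdef] at g3
    refine ⟨n', w, ?_, g2, g3, g4⟩
    refine le_trans ?_ g1
    exact Real.rpow_le_rpow_of_exponent_le (by exact_mod_cast hx1) (by linarith)
  · filter_upwards [hpt, eventually_ge_atTop (max n₁ n₂), tlog.eventually_ge_atTop (max (4 / η) 4),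
      tb.eventually_ge_atTop (4 * GG / η), tz.eventually_le_const (show (0 : ℝ) < 1 / 4 by norm_num),
      hD.slow η hη, logsq c] with n hp k1 k2 k3 k4 k5 k6 s4
    obtain ⟨n', w, h1, h2, h3, h4⟩ := hp s4
    obtain ⟨w', hw'⟩ : ∃ w' : ℕ, w' = ⌈(GG / 2) * (Real.log n') ^ 2 / D n'⌉₊ := ⟨_, rfl⟩
    have hw'w : w' ≤ w := by rw [hw']; exact Nat.ceil_le.2 h3
    refine ⟨n', w', h1, by omega, by rw [hw']; exact Nat.le_ceil _, ?_⟩
    obtain ⟨L, hL⟩ : ∃ L : ℝ, L = Real.log n := ⟨_, rfl⟩
    rw [← hL] at k2 k3 k4 h4 ⊢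
    have q1 : 4 / η ≤ L := (le_max_left _ _).trans k2
    have q2 : 4 ≤ L := (le_max_right _ _).trans k2
    have hL0 : 0 < L := by linarith
    have hn0 : (0 : ℝ) < n := by
      rcases Nat.eq_zero_or_pos n with h | h
      · rw [h] at hL; simp at hL; linarith
      · exact_mod_cast h
    obtain ⟨b, hb⟩ : ∃ b : ℝ, b = L ^ (β / 2) := ⟨_, rfl⟩
    have hb0 : 0 < b := by rw [hb]; exact Real.rpow_pos_of_pos hL0 _
    obtain ⟨a, ha⟩ : ∃ a : ℝ, a = L ^ g := ⟨_, rfl⟩
    have ha0 : 0 < a := by rw [ha]; exact Real.rpow_pos_of_pos hL0 _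
    have hab : L ^ (g + β / 2) = a * b := by rw [ha, hb, ← Real.rpow_add hL0]
    have hbb : L ^ (g + β) = a * b * b := by
      rw [ha, hb, ← Real.rpow_add hL0, ← Real.rpow_add hL0]
      congr 1
      ring
    have hbL : a * b ≤ L := by
      rw [← hab]
      calc L ^ (g + β / 2) ≤ L ^ (1 : ℝ) :=
            Real.rpow_le_rpow_of_exponent_le (by linarith) (by linarith)
        _ = L := Real.rpow_one L
    have hz : a * b / L ≤ 1 / 4 := by
      have : L ^ (-(1 - (g + β / 2))) = a * b / L := by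
        rw [show -(1 - (g + β / 2)) = (g + β / 2) - 1 by ring, Real.rpow_sub hL0, Real.rpow_one, hab]
      rw [← this]
      exact k4
    rw [← hb] at k3
    have hYn : ⌊c * (Real.log n) ^ 2⌋₊ ≤ n := by
      have := (Nat.floor_le (show 0 ≤ c * (Real.log n) ^ 2 by positivity)).trans k6
      exact_mod_cast this
    have hrange : ∀ m ∈ Ioc n' (n' + w'), n ≤ m ∧ m ≤ 2 * n := by
      intro m hmm
      rw [Finset.mem_Ioc] at hmm
      omega
    have hD0 : 0 < D n := by
      rw [hDdef]
      simp only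
      rw [← hL]
      exact Real.rpow_pos_of_pos hL0 _
    have hfac : ∀ m ∈ Ioc n' (n' + w'), Real.exp (-(2 * (a * b / L) + (if m.Prime then (1 + η) * D n else 0))) ≤
        μ.real (E m)ᶜ := by
      intro m hmm
      obtain ⟨r1, r2⟩ := hrange m hmm
      have hlm : L ≤ Real.log m := by
        rw [hL]
        exact Real.log_le_log hn0 (by exact_mod_cast r1)
      split_ifs with hprime
      · refine le_trans ?_ (hn₁ m (((le_max_left _ _).trans k1).trans r1) hprime)
        apply Real.exp_le_exp.2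
        have h5 := (abs_le.1 (k5 m r1 r2)).2
        have h6 : D m = (Real.log m) ^ (g + β) := by rw [hDdef]
        rw [← h6]
        have h7 : 0 ≤ 2 * (a * b / L) := by positivity
        linarith
      · refine le_trans ?_ (hn₂ m (((le_max_right _ _).trans k1).trans r1) hprime)
        have hlm0 : 0 < Real.log m := by linarith
        obtain ⟨y, hy⟩ : ∃ y : ℝ, y = (Real.log m) ^ (g + β / 2) / Real.log m := ⟨_, rfl⟩
        have hy0 : 0 < y := by rw [hy]; exact div_pos (Real.rpow_pos_of_pos hlm0 _) hlm0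
        have hyz : y ≤ a * b / L := by
          have e1 : y = (Real.log m) ^ (g + β / 2 - 1) := by
            rw [hy, Real.rpow_sub hlm0, Real.rpow_one]
          have e2 : a * b / L = L ^ (g + β / 2 - 1) := by
            rw [← hab, Real.rpow_sub hL0, Real.rpow_one]
          rw [e1, e2]
          exact Real.rpow_le_rpow_of_nonpos hL0 hlm (by linarith)
        have hy4 : y ≤ 1 / 4 := hyz.trans hz
        rw [← hy]
        refine le_trans ?_ (one_sub_ge y hy0.le (by linarith))
        apply Real.exp_le_exp.2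
        rw [add_zero]
        nlinarith
    have hcost : (w' : ℝ) * (2 * (a * b / L)) ≤ 3 / 2 * η * L := by
      have hn'0 : (n : ℝ) ≤ n' := by exact_mod_cast h1
      have hn'2 : (n' : ℝ) ≤ 2 * n := by exact_mod_cast (by omega : n' ≤ 2 * n)
      have hl1 : L ≤ Real.log n' := by rw [hL]; exact Real.log_le_log hn0 hn'0
      have hl2 : Real.log n' ≤ L + 1 := by
        have := Real.log_le_log (by linarith) hn'2
        rw [Real.log_mul (by norm_num) hn0.ne'] at this
        have h8 := Real.log_two_lt_d9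
        rw [hL]
        linarith
      have hDn' : a * b * b ≤ D n' := by
        rw [hDdef, ← hbb]
        simp only
        exact Real.rpow_le_rpow hL0.le hl1 (by linarith)
      have hbb0 : 0 < a * b * b := by positivity
      have hDn'0 : 0 < D n' := lt_of_lt_of_le hbb0 hDn'
      have h11 : (w' : ℝ) ≤ (GG / 2) * (Real.log n') ^ 2 / D n' + 1 := by
        rw [hw']
        apply (Nat.ceil_lt_add_one _).le
        apply div_nonneg _ hDn'0.le
        apply mul_nonneg (by linarith) (sq_nonneg _)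
      have h12 : (GG / 2) * (Real.log n') ^ 2 / D n' ≤ (GG / 2) * (4 * L ^ 2) / (a * b * b) := by
        have h13 : (Real.log n') ^ 2 ≤ 4 * L ^ 2 := by nlinarith
        gcongr
      have h14 : (w' : ℝ) ≤ (GG / 2) * (4 * L ^ 2) / (a * b * b) + 1 := by linarith
      have h15 : (w' : ℝ) * (2 * (a * b / L)) ≤
          ((GG / 2) * (4 * L ^ 2) / (a * b * b) + 1) * (2 * (a * b / L)) := by
        gcongr
      refine h15.trans ?_
      have h16 : ((GG / 2) * (4 * L ^ 2) / (a * b * b) + 1) * (2 * (a * b / L)) =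
          4 * GG / b * L + 2 * (a * b / L) := by
        field_simp
      rw [h16]
      have h17 : 4 * GG / b ≤ η := by
        rw [div_le_iff₀ hb0]
        rw [div_le_iff₀ hη] at k3
        linarith
      have h18 : 4 * GG / b * L ≤ η * L := by gcongr
      have h19 : 4 ≤ η * L := by
        rw [div_le_iff₀ hη] at q1
        linarith
      linarith
    have hcard : ((PW n' w').card : ℝ) ≤ (PW n' w).card := by
      have : (PW n' w').card ≤ (PW n' w).card := by
        apply Finset.card_le_card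
        intro p hp
        rw [mem_PW] at hp ⊢
        exact ⟨⟨hp.1.1, by omega⟩, hp.2⟩
      exact_mod_cast this
    calc Real.exp (-((1 - 3 * (η / 2)) * L)) ≤ Real.exp (-(∑ m ∈ Ioc n' (n' + w'), (2 * (a * b / L) +
            (if m.Prime then (1 + η) * D n else 0)))) := by
          apply Real.exp_le_exp.2
          rw [neg_le_neg_iff, Finset.sum_add_distrib, Finset.sum_const, Nat.card_Ioc,
            ← Finset.sum_filter, Finset.sum_const, nsmul_eq_mul, nsmul_eq_mul, Nat.add_sub_cancel_left]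
          have e1 : (((Ioc n' (n' + w')).filter Nat.Prime).card : ℝ) * ((1 + η) * D n) ≤
              (1 - 3 * η) * L := by
            have e2 : (((Ioc n' (n' + w')).filter Nat.Prime).card : ℝ) = (PW n' w').card := rfl
            rw [e2]
            refine le_trans ?_ h4
            have e3 : 0 ≤ (1 + η) * D n := by positivity
            calc ((PW n' w').card : ℝ) * ((1 + η) * D n) ≤ (PW n' w).card * ((1 + η) * D n) := by
                  gcongr
              _ = _ := by ring
          linarith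
      _ = ∏ m ∈ Ioc n' (n' + w'), Real.exp (-(2 * (a * b / L) + (if m.Prime then (1 + η) * D n else 0))) := by
          rw [← Finset.sum_neg_distrib, Real.exp_sum]
      _ ≤ _ := Finset.prod_le_prod (fun m _ => (Real.exp_pos _).le) hfac

end Pool.Agent.U395.RP
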