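import Mathlib
import Pool.Agent.U395.RP.Up

set_option autoImplicit false

/-! # Elements in every window, all exponents -/

open MeasureTheory ProbabilityTheory Filter Finset Topology
open Pool.Agent.U839.Thin (tlog compl_indep)

namespace Pool.Agent.U395.RP

variable {Ω : Type*} [MeasurableSpace Ω] {μ : Measure Ω} [IsProbabilityMeasure μ]

set_option maxHeartbeats 4000000 in
theorem up2 (τ θ : ℝ) (hτ : 0 < τ) (hθ : -1 ≤ θ) {E : ℕ → Set Ω} (hm : ∀ n, MeasurableSet (E n))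
    (hE : iIndepSet E μ) (hP : ∀ᶠ n : ℕ in atTop, τ / (Real.log n) ^ (1 + θ) ≤ μ.real (E n))
    (c : ℝ) (hc : 1 < c * τ) :
    ∀ᵐ ω ∂μ, ∀ᶠ n : ℕ in atTop, ∃ m : ℕ, n < m ∧ (m : ℝ) ≤ n + c * (Real.log n) ^ (2 + θ) ∧
      ω ∈ E m := by
  classical
  have hc0 : 0 < c := by
    by_contra hcon
    push Not at hcon
    have := mul_nonpos_of_nonpos_of_nonneg hcon hτ.le
    linarith
  obtain ⟨δ, hδ⟩ : ∃ δ : ℝ, δ = (c * τ - 1) / 2 := ⟨_, rfl⟩
  have hδ0 : 0 < δ := by rw [hδ]; linarith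
  obtain ⟨δ₁, hδ₁⟩ : ∃ δ₁ : ℝ, δ₁ = (δ / 2) / (1 + δ) := ⟨_, rfl⟩
  have hδ₁0 : 0 < δ₁ := by rw [hδ₁]; positivity
  have hδ₁1 : (1 + δ) * (1 + δ₁) = 1 + 3 * δ / 2 := by
    rw [hδ₁]; field_simp; ring
  obtain ⟨n₁, hn₁⟩ := eventually_atTop.1 hP
  set bad : ℕ → Set Ω := fun n => ⋂ m ∈ Ioc n (n + ⌊c * (Real.log n) ^ (2 + θ)⌋₊), (E m)ᶜ with hbad
  have hb : ∀ᶠ n : ℕ in atTop, μ.real (bad n) ≤ 1 / (n : ℝ) ^ (1 + δ) := by
    filter_upwards [logpow c (2 + θ), eventually_ge_atTop (max n₁ 2), tlog.eventually_ge_atTop 1,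
      tlog.eventually_ge_atTop (2 * τ / δ), shift (1 + θ) δ₁ hδ₁0] with n g1 g2 g3 g4 g5
    have k1 : n₁ ≤ n := (le_max_left _ _).trans g2
    have k2 : 2 ≤ n := (le_max_right _ _).trans g2
    have hn0 : (0 : ℝ) < n := by exact_mod_cast (by omega : 0 < n)
    obtain ⟨L, hL⟩ : ∃ L : ℝ, L = Real.log n := ⟨_, rfl⟩
    have hLa : Real.log n = L := hL.symm
    rw [hLa] at g1 g3 g4 g5
    have hL0 : 0 < L := by linarith
    obtain ⟨Y, hY⟩ : ∃ Y : ℕ, Y = ⌊c * L ^ (2 + θ)⌋₊ := ⟨_, rfl⟩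
    have hYn : (Y : ℝ) ≤ n := by
      rw [hY]
      exact (Nat.floor_le (by positivity)).trans g1
    have h3 : μ.real (bad n) = ∏ m ∈ Ioc n (n + Y), μ.real (E m)ᶜ := by
      have := (compl_indep hE).meas_biInter (Ioc n (n + Y))
      rw [hbad, hY, ← hLa]
      rw [hY, ← hLa] at this
      simp only [measureReal_def]
      rw [this, ENNReal.toReal_prod]
    rw [h3]
    have h4 : ∀ m ∈ Ioc n (n + Y), μ.real (E m)ᶜ ≤ Real.exp (-(τ / (L + 1) ^ (1 + θ))) := by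
      intro m hmm
      rw [Finset.mem_Ioc] at hmm
      rw [probReal_compl_eq_one_sub (hm m)]
      have h5 := hn₁ m (k1.trans hmm.1.le)
      have h6 : Real.log m ≤ L + 1 := by
        have h7 : (m : ℝ) ≤ 2 * n := by
          have : (m : ℝ) ≤ n + Y := by exact_mod_cast hmm.2
          linarith
        have hm0 : (0 : ℝ) < m := by exact_mod_cast (by omega : 0 < m)
        have := Real.log_le_log hm0 h7
        rw [Real.log_mul (by norm_num) hn0.ne'] at this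
        have h8 := Real.log_two_lt_d9
        rw [hL]
        linarith
      have h7 : 0 < Real.log m := Real.log_pos (by exact_mod_cast (by omega : 1 < m))
      have h8 : τ / (L + 1) ^ (1 + θ) ≤ τ / (Real.log m) ^ (1 + θ) := by
        have h9 : (Real.log m) ^ (1 + θ) ≤ (L + 1) ^ (1 + θ) :=
          Real.rpow_le_rpow h7.le h6 (by linarith)
        have h10 : 0 < (Real.log m) ^ (1 + θ) := Real.rpow_pos_of_pos h7 _
        gcongr
      have h9 := Real.add_one_le_exp (-(τ / (L + 1) ^ (1 + θ)))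
      linarith
    refine (Finset.prod_le_prod (fun m _ => measureReal_nonneg) h4).trans ?_
    rw [Finset.prod_const, Nat.card_Ioc, Nat.add_sub_cancel_left, ← Real.exp_nat_mul]
    have h5 : 1 / (n : ℝ) ^ (1 + δ) = Real.exp (-((1 + δ) * L)) := by
      rw [Real.rpow_def_of_pos hn0, one_div, ← Real.exp_neg, hL]
      congr 1
      ring
    rw [h5]
    apply Real.exp_le_exp.2
    have hp1 : 0 < (L + 1) ^ (1 + θ) := Real.rpow_pos_of_pos (by linarith) _
    rw [mul_neg, neg_le_neg_iff, mul_div_assoc', le_div_iff₀ hp1]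
    have hq : L ^ (2 + θ) = L * L ^ (1 + θ) := by
      rw [show (2 : ℝ) + θ = 1 + (1 + θ) by ring, Real.rpow_add hL0, Real.rpow_one]
    have hq1 : L ≤ L ^ (2 + θ) := by
      calc L = L ^ (1 : ℝ) := (Real.rpow_one L).symm
        _ ≤ L ^ (2 + θ) := Real.rpow_le_rpow_of_exponent_le g3 (by linarith)
    have h6 : c * L ^ (2 + θ) - 1 ≤ Y := by
      rw [hY]
      exact (Nat.sub_one_lt_floor _).le
    have h7 : (c * L ^ (2 + θ) - 1) * τ ≤ Y * τ := by gcongr
    have h8 : 2 * τ ≤ δ * L := by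
      rw [div_le_iff₀ hδ0] at g4
      linarith
    have h9 : c * τ = 1 + 2 * δ := by rw [hδ]; ring
    have h10 : (1 + δ) * L * (L + 1) ^ (1 + θ) ≤ (1 + 3 * δ / 2) * L ^ (2 + θ) := by
      calc (1 + δ) * L * (L + 1) ^ (1 + θ) ≤ (1 + δ) * L * ((1 + δ₁) * L ^ (1 + θ)) := by gcongr
        _ = ((1 + δ) * (1 + δ₁)) * (L * L ^ (1 + θ)) := by ring
        _ = _ := by rw [hδ₁1, hq]
    refine h10.trans ?_
    refine le_trans ?_ h7
    have h11 : (c * L ^ (2 + θ) - 1) * τ = (1 + 2 * δ) * L ^ (2 + θ) - τ := by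
      rw [← h9]; ring
    rw [h11]
    nlinarith
  obtain ⟨n₀, hn₀⟩ := eventually_atTop.1 hb
  set bad' : ℕ → Set Ω := fun n => if n₀ ≤ n then bad n else ∅ with hbad'
  have hsum : Summable (fun n : ℕ => 1 / (n : ℝ) ^ (1 + δ)) :=
    Real.summable_one_div_nat_rpow.2 (by linarith)
  have htot : ∑' n, μ (bad' n) ≠ ⊤ := by
    have h5 : ∀ n, μ (bad' n) ≤ ENNReal.ofReal (1 / (n : ℝ) ^ (1 + δ)) := by
      intro n
      rw [hbad']
      simp only
      split_ifs with hn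
      · rw [← ENNReal.ofReal_toReal (measure_ne_top μ (bad n))]
        exact ENNReal.ofReal_le_ofReal (hn₀ n hn)
      · simp
    exact ne_top_of_le_ne_top hsum.tsum_ofReal_ne_top (ENNReal.tsum_le_tsum h5)
  filter_upwards [ae_eventually_notMem htot] with ω hω
  filter_upwards [hω, eventually_ge_atTop n₀, tlog.eventually_ge_atTop 0] with n hn hnn hl
  rw [hbad'] at hn
  simp only [if_pos hnn] at hn
  rw [hbad] at hn
  simp only [Set.mem_iInter, not_forall] at hn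
  obtain ⟨m, hm1, hm2⟩ := hn
  rw [Set.notMem_compl_iff] at hm2
  rw [Finset.mem_Ioc] at hm1
  refine ⟨m, hm1.1, ?_, hm2⟩
  have h6 : (m : ℝ) ≤ n + (⌊c * (Real.log n) ^ (2 + θ)⌋₊ : ℝ) := by exact_mod_cast hm1.2
  have h7 := Nat.floor_le (show 0 ≤ c * (Real.log n) ^ (2 + θ) by positivity)
  linarith

end Pool.Agent.U395.RP
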