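import Mathlib
import Pool.Agent.U395.RP.LowE
import Pool.Agent.U395.RP.Up2
import Pool.Agent.U395.RP.Fin2

set_option autoImplicit false

/-! # The exponent of the largest gap for random changes of the primes -/

open MeasureTheory ProbabilityTheory Filter Finset Topology
open Pool.Agent.U839.Thin (GG GG_pos tlog)

namespace Pool.Agent.U395.RP

/-- the largest gap which follows an element at most `X` -/
noncomputable def Gm (Q : Set ℕ) (X : ℕ) : ℕ :=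
  sSup {g | ∃ k, Nat.nth (· ∈ Q) k ≤ X ∧ g = Nat.nth (· ∈ Q) (k + 1) - Nat.nth (· ∈ Q) k}

theorem Gm_bdd (Q : Set ℕ) (hQ : Q.Infinite) (X : ℕ) : BddAbove
    {g | ∃ k, Nat.nth (· ∈ Q) k ≤ X ∧ g = Nat.nth (· ∈ Q) (k + 1) - Nat.nth (· ∈ Q) k} := by
  have hQ' : (Set.ofPred (· ∈ Q)).Infinite := hQ
  have hmono := Nat.nth_strictMono hQ'
  refine ⟨Nat.nth (· ∈ Q) (X + 1), ?_⟩
  rintro g ⟨k, hk, rfl⟩
  have h1 : k ≤ Nat.nth (· ∈ Q) k := hmono.le_apply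
  have h2 : Nat.nth (· ∈ Q) (k + 1) ≤ Nat.nth (· ∈ Q) (X + 1) := hmono.monotone (by omega)
  omega

theorem G_le_Gm (Q : Set ℕ) (hQ : Q.Infinite) (X : ℕ) : G Q X ≤ Gm Q X := by
  have hQ' : (Set.ofPred (· ∈ Q)).Infinite := hQ
  have hmono := Nat.nth_strictMono hQ'
  apply csSup_le'
  rintro g ⟨k, hk, rfl⟩
  apply le_csSup (Gm_bdd Q hQ X)
  exact ⟨k, (hmono.monotone (Nat.le_succ k)).trans hk, rfl⟩

theorem Gm_le (Q : Set ℕ) (hQ : Q.Infinite) (U : ℕ → ℝ) (n₀ : ℕ)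
    (h : ∀ n, n₀ ≤ n → ∃ m : ℕ, n < m ∧ (m : ℝ) ≤ n + U n ∧ m ∈ Q) (X : ℕ) (V : ℝ)
    (hU : ∀ n, n₀ ≤ n → n ≤ X → U n ≤ V) (hV : (n₀ : ℝ) + U n₀ ≤ V) : (Gm Q X : ℝ) ≤ V := by
  classical
  have hQ' : (Set.ofPred (· ∈ Q)).Infinite := hQ
  obtain ⟨m₀, a1, a2, a3⟩ := h n₀ le_rfl
  have hV0 : (m₀ : ℝ) ≤ V := a2.trans hV
  have hV1 : 0 ≤ V := le_trans (Nat.cast_nonneg m₀) hV0
  have key : Gm Q X ≤ ⌊V⌋₊ := by
    apply csSup_le'
    rintro g ⟨k, hk, rfl⟩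
    apply Nat.le_floor
    obtain ⟨a, ha⟩ : ∃ a, a = Nat.nth (· ∈ Q) k := ⟨_, rfl⟩
    obtain ⟨b, hb⟩ : ∃ b, b = Nat.nth (· ∈ Q) (k + 1) := ⟨_, rfl⟩
    have hab : a < b := by
      rw [ha, hb]
      exact Nat.nth_strictMono hQ' (Nat.lt_succ_self k)
    have hbm : ∀ m ∈ Q, a < m → b ≤ m := by
      intro m hm ham
      have h3 : k < Nat.count (· ∈ Q) m := by
        rw [ha] at ham
        exact (Nat.lt_nth_iff_count_lt hQ').2 ham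
      have h4 : Nat.nth (· ∈ Q) (Nat.count (· ∈ Q) m) = m := Nat.nth_count (p := (· ∈ Q)) hm
      rw [hb, ← h4]
      exact (Nat.nth_strictMono hQ').monotone h3
    rw [← ha] at hk
    rw [← ha, ← hb, Nat.cast_sub hab.le]
    rcases le_total n₀ a with h1 | h1
    · obtain ⟨m, h2, h3, h4⟩ := h a h1
      have h5 : (b : ℝ) ≤ m := by exact_mod_cast hbm m h4 h2
      have h6 := hU a h1 hk
      linarith
    · have h5 : (b : ℝ) ≤ m₀ := by exact_mod_cast hbm m₀ a3 (by omega)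
      have : (0 : ℝ) ≤ a := Nat.cast_nonneg a
      linarith
  have h9 : (Gm Q X : ℝ) ≤ ⌊V⌋₊ := by exact_mod_cast key
  exact h9.trans (Nat.floor_le hV1)

theorem conv_upL (Q : Set ℕ) (hQ : Q.Infinite) (c θ : ℝ) (hc : 0 < c) (hθ : -1 ≤ θ)
    (h : ∀ᶠ n : ℕ in atTop, ∃ m : ℕ, n < m ∧ (m : ℝ) ≤ n + c * (Real.log n) ^ (2 + θ) ∧ m ∈ Q) :
    ∀ᶠ X : ℕ in atTop, (Gm Q X : ℝ) ≤ c * (Real.log X) ^ (2 + θ) := by
  obtain ⟨n₀, hn₀⟩ := eventually_atTop.1 h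
  obtain ⟨n₁, hn₁⟩ : ∃ n₁, n₁ = max n₀ 1 := ⟨_, rfl⟩
  have e1 : Tendsto (fun X : ℕ => c * (Real.log (X : ℝ)) ^ (2 + θ)) atTop atTop :=
    ((tendsto_rpow_atTop (show 0 < 2 + θ by linarith)).comp tlog).const_mul_atTop hc
  filter_upwards [e1.eventually_ge_atTop ((n₁ : ℝ) + c * (Real.log n₁) ^ (2 + θ))] with X hX
  apply Gm_le Q hQ (fun n => c * (Real.log n) ^ (2 + θ)) n₁ _ X _ _ hX
  · intro n hn
    exact hn₀ n (by rw [hn₁] at hn; exact (le_max_left _ _).trans hn)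
  · intro n hn hnX
    have hn1 : 1 ≤ n := by rw [hn₁] at hn; exact (le_max_right _ _).trans hn
    have hn0 : (0 : ℝ) < n := by exact_mod_cast hn1
    have h1 : 0 ≤ Real.log n := Real.log_natCast_nonneg n
    have h2 : Real.log n ≤ Real.log X := Real.log_le_log hn0 (by exact_mod_cast hnX)
    have h3 : (Real.log n) ^ (2 + θ) ≤ (Real.log X) ^ (2 + θ) :=
      Real.rpow_le_rpow h1 h2 (by linarith)
    gcongr

/-- from a window to the exponent -/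
theorem expo (β ε : ℝ) (hβ : 0 < β) (hβ1 : β < 1) (hβε : β < ε) :
    ∀ᶠ X : ℕ in atTop, ∀ n' w : ℕ, 1 / 4 * Real.log X ≤ Real.log n' →
      (GG / 2) * (Real.log n') ^ 2 / (Real.log n') ^ β ≤ w → (Real.log X) ^ (2 - ε) ≤ w := by
  have hG := GG_pos
  have e1 : ∀ᶠ X : ℕ in atTop, (32 / GG : ℝ) ≤ (Real.log X) ^ (ε - β) :=
    ((tendsto_rpow_atTop (show 0 < ε - β by linarith)).comp tlog).eventually_ge_atTop _
  filter_upwards [e1, tlog.eventually_ge_atTop 4] with X g1 g2 n' w h1 h2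
  refine le_trans ?_ h2
  obtain ⟨L, hL⟩ : ∃ L, L = Real.log X := ⟨_, rfl⟩
  obtain ⟨l, hl⟩ : ∃ l, l = Real.log n' := ⟨_, rfl⟩
  rw [← hL] at g1 g2 h1 ⊢
  rw [← hl] at h1 ⊢
  have hL0 : 0 < L := by linarith
  have hl0 : 0 < l := by linarith
  have h3 : (GG / 2) * l ^ 2 / l ^ β = (GG / 2) * l ^ (2 - β) := by
    rw [Real.rpow_sub hl0, Real.rpow_two]
    ring
  rw [h3]
  have h4 : (1 / 4 * L) ^ (2 - β) ≤ l ^ (2 - β) :=
    Real.rpow_le_rpow (by positivity) h1 (by linarith)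
  have h5 : (1 / 16 : ℝ) ≤ (1 / 4 : ℝ) ^ (2 - β) := by
    calc (1 / 16 : ℝ) = (1 / 4 : ℝ) ^ (2 : ℝ) := by norm_num
      _ ≤ (1 / 4 : ℝ) ^ (2 - β) :=
        Real.rpow_le_rpow_of_exponent_ge (by norm_num) (by norm_num) (by linarith)
  rw [Real.mul_rpow (by norm_num) hL0.le] at h4
  have hp : 0 < L ^ (2 - β) := Real.rpow_pos_of_pos hL0 _
  have h6 : 1 / 16 * L ^ (2 - β) ≤ l ^ (2 - β) := le_trans (by gcongr) h4
  have h7 : L ^ (2 - β) = L ^ (2 - ε) * L ^ (ε - β) := by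
    rw [← Real.rpow_add hL0]
    congr 1
    ring
  have hq : 0 < L ^ (2 - ε) := Real.rpow_pos_of_pos hL0 _
  calc L ^ (2 - ε) = (GG / 2) * (1 / 16 * (L ^ (2 - ε) * (32 / GG))) := by
        field_simp
        norm_num
    _ ≤ (GG / 2) * (1 / 16 * (L ^ (2 - ε) * L ^ (ε - β))) := by gcongr
    _ = (GG / 2) * (1 / 16 * L ^ (2 - β)) := by rw [h7]
    _ ≤ (GG / 2) * l ^ (2 - β) := by gcongr

variable {Ω : Type*} [MeasurableSpace Ω] {μ : Measure Ω} [IsProbabilityMeasure μ]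

theorem lowE' (c : ℝ) (hc : 0 ≤ c) {E : ℕ → Set Ω} (hm : ∀ n, MeasurableSet (E n))
    (hE : iIndepSet E μ)
    (hC : ∀ ε : ℝ, 0 < ε → ∀ᶠ n : ℕ in atTop, ¬ n.Prime →
      μ.real (E n) ≤ (Real.log n) ^ (-1 + c + ε))
    (hD : ∀ ε : ℝ, 0 < ε → ∀ᶠ p : ℕ in atTop, p.Prime →
      μ.real (E p) ≤ 1 - Real.exp (-(Real.log p) ^ (c + ε))) (β : ℝ) (hβ : 0 < β)
    (hβ1 : c + β < 1) :
    ∀ᵐ ω ∂μ, ∀ᶠ x : ℕ in atTop, ∃ n' w : ℕ, (x : ℝ) ^ (1 - 1 / 2 : ℝ) ≤ n' ∧ n' + w ≤ 2 * x ∧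
      (GG / 2) * (Real.log n') ^ 2 / (Real.log n') ^ (c + β) ≤ w ∧
      ∀ m ∈ Ioc n' (n' + w), m ∉ {n | ω ∈ E n} := by
  apply lowE c β hc hβ hβ1 hm hE
  · filter_upwards [hD β hβ] with p h1 hp
    rw [probReal_compl_eq_one_sub (hm p)]
    linarith [h1 hp]
  · filter_upwards [hC (β / 2) (by linarith), tlog.eventually_ge_atTop 1] with n h1 h2 hn
    have hL : 0 < Real.log n := by linarith
    rw [probReal_compl_eq_one_sub (hm n)]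
    have h3 := h1 hn
    rw [show (-1 : ℝ) + c + β / 2 = c + β / 2 - 1 by ring, Real.rpow_sub hL, Real.rpow_one] at h3
    linarith

/-- both halves -/
theorem finE1 (c : ℝ) (hc : 0 ≤ c) (hc1 : c < 1) {E : ℕ → Set Ω} (hm : ∀ n, MeasurableSet (E n))
    (hE : iIndepSet E μ)
    (hC : ∀ ε : ℝ, 0 < ε → ∀ᶠ n : ℕ in atTop, ¬ n.Prime →
      μ.real (E n) ≤ (Real.log n) ^ (-1 + c + ε))
    (hD : ∀ ε : ℝ, 0 < ε → ∀ᶠ p : ℕ in atTop, p.Prime →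
      μ.real (E p) ≤ 1 - Real.exp (-(Real.log p) ^ (c + ε)))
    (hL : ∀ ε : ℝ, 0 < ε → ∀ᶠ n : ℕ in atTop, (Real.log n) ^ (-1 + c - ε) ≤ μ.real (E n)) :
    ∀ᵐ ω ∂μ, {n | ω ∈ E n}.Infinite ∧ ∀ ε : ℝ, 0 < ε → ∀ᶠ X : ℕ in atTop,
      (Real.log X) ^ (2 - c - ε) ≤ Gm {n | ω ∈ E n} X ∧
      (Gm {n | ω ∈ E n} X : ℝ) ≤ (Real.log X) ^ (2 - c + ε) := by
  have hc2 : 0 < 1 - c := by linarith
  have hs : ∀ j : ℕ, 0 < (1 - c) / ((j : ℝ) + 2) ∧ c + (1 - c) / ((j : ℝ) + 2) < 1 := by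
    intro j
    have hj : (0 : ℝ) ≤ j := Nat.cast_nonneg j
    refine ⟨by positivity, ?_⟩
    have : (1 - c) / ((j : ℝ) + 2) < 1 - c := by
      rw [div_lt_iff₀ (by positivity)]
      nlinarith
    linarith
  have u1 : ∀ j : ℕ, ∀ᵐ ω ∂μ, ∀ᶠ n : ℕ in atTop, ∃ m : ℕ, n < m ∧
      (m : ℝ) ≤ n + 2 * (Real.log n) ^ (2 + (-c + (1 - c) / ((j : ℝ) + 2))) ∧ ω ∈ E m := by
    intro j
    obtain ⟨hs0, hs1⟩ := hs j
    apply up2 1 (-c + (1 - c) / ((j : ℝ) + 2)) one_pos (by linarith) hm hE _ 2 (by norm_num)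
    filter_upwards [hL _ hs0, tlog.eventually_ge_atTop 1] with n h1 h2
    have hL0 : 0 < Real.log n := by linarith
    refine le_trans (le_of_eq ?_) h1
    rw [show (-1 : ℝ) + c - (1 - c) / ((j : ℝ) + 2) = -(1 + (-c + (1 - c) / ((j : ℝ) + 2))) by ring,
      Real.rpow_neg hL0.le, one_div]
  have l1 : ∀ j : ℕ, _ := fun j => lowE' c hc hm hE hC hD ((1 - c) / ((j : ℝ) + 2)) (hs j).1 (hs j).2
  rw [← ae_all_iff] at u1 l1
  filter_upwards [u1, l1] with ω hu hl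
  have hQ := inf_of {n | ω ∈ E n} _ (hu 0)
  refine ⟨hQ, fun ε hε => ?_⟩
  obtain ⟨j, hj⟩ := exists_nat_gt (2 / ε)
  have hj1 : (1 - c) / ((j : ℝ) + 2) ≤ ε / 2 := by
    rw [div_lt_iff₀ hε] at hj
    rw [div_le_iff₀ (by positivity)]
    nlinarith
  obtain ⟨hs0, hs1⟩ := hs j
  have e1 : ∀ᶠ X : ℕ in atTop, (2 : ℝ) ≤ (Real.log X) ^ (ε / 2) :=
    ((tendsto_rpow_atTop (show 0 < ε / 2 by positivity)).comp tlog).eventually_ge_atTop 2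
  filter_upwards [conv_upL {n | ω ∈ E n} hQ 2 _ (by norm_num) (by linarith) (hu j), e1,
    tlog.eventually_ge_atTop 1,
    conv_low {n | ω ∈ E n} hQ 2 _ (1 / 2) (by norm_num) (hu 0) _ (hl j),
    log_left (1 / 2) (by norm_num) (by norm_num),
    expo (c + (1 - c) / ((j : ℝ) + 2)) (c + ε) (by linarith) hs1 (by linarith)]
    with X a1 a2 a3 a4 a5 a6
  refine ⟨?_, ?_⟩
  · obtain ⟨n', w, k1, k2, k3, k4⟩ := a4
    have k5 := a5 n' k1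
    have k6 := a6 n' w (by norm_num at k5 ⊢; linarith) k3
    have k7 : (w : ℝ) ≤ Gm {n | ω ∈ E n} X := by
      exact_mod_cast k4.trans (G_le_Gm _ hQ X)
    rw [sub_sub]
    exact k6.trans k7
  · refine a1.trans ?_
    have hL0 : 0 < Real.log X := by linarith
    calc 2 * (Real.log X) ^ (2 + (-c + (1 - c) / ((j : ℝ) + 2))) ≤
        (Real.log X) ^ (ε / 2) * (Real.log X) ^ (2 - c + ε / 2) := by
          have h7 : (Real.log X) ^ (2 + (-c + (1 - c) / ((j : ℝ) + 2))) ≤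
              (Real.log X) ^ (2 - c + ε / 2) :=
            Real.rpow_le_rpow_of_exponent_le a3 (by linarith)
          gcongr
      _ = (Real.log X) ^ (2 - c + ε) := by
          rw [← Real.rpow_add hL0]
          congr 1
          ring

/-- the lower half -/
theorem finE2 (c : ℝ) (hc : 0 ≤ c) (hc1 : c < 1) {E : ℕ → Set Ω} (hm : ∀ n, MeasurableSet (E n))
    (hE : iIndepSet E μ)
    (hC : ∀ ε : ℝ, 0 < ε → ∀ᶠ n : ℕ in atTop, ¬ n.Prime →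
      μ.real (E n) ≤ (Real.log n) ^ (-1 + c + ε))
    (hD : ∀ ε : ℝ, 0 < ε → ∀ᶠ p : ℕ in atTop, p.Prime →
      μ.real (E p) ≤ 1 - Real.exp (-(Real.log p) ^ (c + ε)))
    (ρ : ℝ) (hρ : 0 < ρ) (hL : ∀ᶠ p : ℕ in atTop, p.Prime → ρ ≤ μ.real (E p)) :
    ∀ᵐ ω ∂μ, {n | ω ∈ E n}.Infinite ∧ ∀ ε : ℝ, 0 < ε → ∀ᶠ X : ℕ in atTop,
      (Real.log X) ^ (2 - c - ε) ≤ Gm {n | ω ∈ E n} X := by
  have hc2 : 0 < 1 - c := by linarith
  have hs : ∀ j : ℕ, 0 < (1 - c) / ((j : ℝ) + 2) ∧ c + (1 - c) / ((j : ℝ) + 2) < 1 := by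
    intro j
    have hj : (0 : ℝ) ≤ j := Nat.cast_nonneg j
    refine ⟨by positivity, ?_⟩
    have : (1 - c) / ((j : ℝ) + 2) < 1 - c := by
      rw [div_lt_iff₀ (by positivity)]
      nlinarith
    linarith
  have l1 : ∀ j : ℕ, _ := fun j => lowE' c hc hm hE hC hD ((1 - c) / ((j : ℝ) + 2)) (hs j).1 (hs j).2
  rw [← ae_all_iff] at l1
  filter_upwards [exD ρ hρ hm hE hL 4 (by norm_num), l1] with ω hex hl
  have hQ : {n | ω ∈ E n}.Infinite := inf_of_ex _ 4 (by norm_num) hex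
  refine ⟨hQ, fun ε hε => ?_⟩
  obtain ⟨j, hj⟩ := exists_nat_gt (2 / ε)
  have hj1 : (1 - c) / ((j : ℝ) + 2) ≤ ε / 2 := by
    rw [div_lt_iff₀ hε] at hj
    rw [div_le_iff₀ (by positivity)]
    nlinarith
  obtain ⟨hs0, hs1⟩ := hs j
  filter_upwards [conv_del {n | ω ∈ E n} hQ (1 / 2) (by norm_num) (by norm_num) 4 (by norm_num)
    (by norm_num) _ (hl j) hex,
    expo (c + (1 - c) / ((j : ℝ) + 2)) (c + ε) (by linarith) hs1 (by linarith)] with X a4 a6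
  obtain ⟨n', w, k5, k2, k3, k4⟩ := a4
  have k6 := a6 n' w (by norm_num at k5 ⊢; linarith) k3
  have k7 : (w : ℝ) ≤ Gm {n | ω ∈ E n} X := by
    exact_mod_cast k4.trans (G_le_Gm _ hQ X)
  rw [sub_sub]
  exact k6.trans k7

end Pool.Agent.U395.RP
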